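import Mathlib
import Pool.Graph.R_seed8.Helper475.Miranda

/-!
# Copies of a cyclic quadrilateral in a curve `r = ρ(θ)`: the geometric lemma
-/

set_option autoImplicit false

namespace Pool.Agent.H813.Spiral

open Complex Set Filter Topology
open scoped ComplexConjugate

/-- Four points on the unit circle with an affine dependency `σ`. -/
structure Quad where
  u : Fin 4 → ℂ
  σ : Fin 4 → ℝ
  hu : ∀ m, ‖u m‖ = 1
  hσ : σ 0 + σ 1 + σ 2 + σ 3 = 0
  hσu : (σ 0 : ℂ) * u 0 + σ 1 * u 1 + σ 2 * u 2 + σ 3 * u 3 = 0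
  hσ3 : σ 3 ≠ 0
  hΔ : ((u 0 - u 1) * conj (u 2 - u 1)).im ≠ 0

namespace Quad

variable (Q : Quad)

/-- the determinant -/
noncomputable def Δ : ℝ := ((Q.u 0 - Q.u 1) * conj (Q.u 2 - Q.u 1)).im

/-- the complex coefficient `B` -/
noncomputable def B (x : Fin 4 → ℝ) : ℂ :=
  I * (((x 2 - x 1 : ℝ) : ℂ) * conj (Q.u 0 - Q.u 1)
    - ((x 0 - x 1 : ℝ) : ℂ) * conj (Q.u 2 - Q.u 1)) / ((Q.Δ : ℝ) : ℂ)

/-- the real coefficient `A` -/
noncomputable def A (x : Fin 4 → ℝ) : ℝ := x 1 - (Q.u 1 * Q.B x).re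

/-- the squared modulus of `w` -/
noncomputable def μ (x : Fin 4 → ℝ) : ℝ := (Q.A x + √(Q.A x ^ 2 - ‖Q.B x‖ ^ 2)) / 2

/-- the relative displacement -/
noncomputable def ζ (m : Fin 4) (x : Fin 4 → ℝ) : ℂ := conj (Q.u m * Q.B x) / ((2 * Q.μ x : ℝ) : ℂ)

/-- the correction of the phase -/
noncomputable def δ (m : Fin 4) (x : Fin 4 → ℝ) : ℝ := arg (1 + Q.ζ m x)

/-- the value of the squared modulus in terms of `A` and `B` -/
noncomputable def V (m : Fin 4) (x : Fin 4 → ℝ) : ℝ := Q.A x + (Q.u m * Q.B x).re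

lemma Δ_ne : Q.Δ ≠ 0 := Q.hΔ

lemma V_one (x : Fin 4 → ℝ) : Q.V 1 x = x 1 := by
  unfold V A; ring

lemma re_div_real (z : ℂ) (r : ℝ) : (z / (r : ℂ)).re = z.re / r := by
  rw [Complex.div_ofReal_re]

lemma V_zero (x : Fin 4 → ℝ) : Q.V 0 x = x 0 := by
  have h : ((Q.u 0 - Q.u 1) * Q.B x).re = x 0 - x 1 := by
    unfold B
    rw [← mul_div_assoc, re_div_real, div_eq_iff Q.Δ_ne]
    unfold Δ
    simp only [mul_re, mul_im, sub_re, sub_im, I_re, I_im, ofReal_re, ofReal_im, conj_re, conj_im]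
    ring
  have h2 : ((Q.u 0 - Q.u 1) * Q.B x).re = (Q.u 0 * Q.B x).re - (Q.u 1 * Q.B x).re := by
    rw [sub_mul, sub_re]
  unfold V A
  linarith

lemma V_two (x : Fin 4 → ℝ) : Q.V 2 x = x 2 := by
  have h : ((Q.u 2 - Q.u 1) * Q.B x).re = x 2 - x 1 := by
    unfold B
    rw [← mul_div_assoc, re_div_real, div_eq_iff Q.Δ_ne]
    unfold Δ
    simp only [mul_re, mul_im, sub_re, sub_im, I_re, I_im, ofReal_re, ofReal_im, conj_re, conj_im]
    ring
  have h2 : ((Q.u 2 - Q.u 1) * Q.B x).re = (Q.u 2 * Q.B x).re - (Q.u 1 * Q.B x).re := by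
    rw [sub_mul, sub_re]
  unfold V A
  linarith

lemma V_sum (x : Fin 4 → ℝ) :
    Q.σ 0 * Q.V 0 x + Q.σ 1 * Q.V 1 x + Q.σ 2 * Q.V 2 x + Q.σ 3 * Q.V 3 x = 0 := by
  have h : (((Q.σ 0 : ℂ) * Q.u 0 + Q.σ 1 * Q.u 1 + Q.σ 2 * Q.u 2 + Q.σ 3 * Q.u 3) * Q.B x).re
      = Q.σ 0 * (Q.u 0 * Q.B x).re + Q.σ 1 * (Q.u 1 * Q.B x).re
        + Q.σ 2 * (Q.u 2 * Q.B x).re + Q.σ 3 * (Q.u 3 * Q.B x).re := by
    simp only [mul_re, mul_im, add_re, add_im, ofReal_re, ofReal_im]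
    ring
  rw [Q.hσu] at h
  simp only [zero_mul, zero_re] at h
  unfold V
  have := Q.hσ
  linear_combination (-1 : ℝ) * h + Q.A x * this

lemma continuous_B : Continuous Q.B := by
  unfold B; fun_prop

lemma continuous_A : Continuous Q.A := by
  unfold A
  have := Q.continuous_B
  fun_prop

lemma continuous_μ : Continuous Q.μ := by
  unfold μ
  have := Q.continuous_B
  have := Q.continuous_A
  fun_prop

/-- the good region -/
def Good (x : Fin 4 → ℝ) : Prop := ‖Q.B x‖ < Q.A x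

lemma μ_pos {x : Fin 4 → ℝ} (h : Q.Good x) : 0 < Q.μ x := by
  have h1 : 0 ≤ ‖Q.B x‖ := norm_nonneg _
  have h2 : ‖Q.B x‖ < Q.A x := h
  have h3 := Real.sqrt_nonneg (Q.A x ^ 2 - ‖Q.B x‖ ^ 2)
  unfold μ
  linarith

lemma A_le_two_μ (x : Fin 4 → ℝ) : Q.A x ≤ 2 * Q.μ x := by
  have h3 := Real.sqrt_nonneg (Q.A x ^ 2 - ‖Q.B x‖ ^ 2)
  unfold μ
  linarith

lemma μ_eq {x : Fin 4 → ℝ} (h : Q.Good x) :
    4 * Q.μ x ^ 2 + ‖Q.B x‖ ^ 2 = 4 * Q.μ x * Q.A x := by
  have h1 : 0 ≤ ‖Q.B x‖ := norm_nonneg _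
  have h2 : ‖Q.B x‖ < Q.A x := h
  have h4 : 0 ≤ Q.A x ^ 2 - ‖Q.B x‖ ^ 2 := by nlinarith
  have h3 := Real.sq_sqrt h4
  unfold μ
  nlinarith

lemma norm_ζ (m : Fin 4) {x : Fin 4 → ℝ} (h : Q.Good x) :
    ‖Q.ζ m x‖ = ‖Q.B x‖ / (2 * Q.μ x) := by
  unfold ζ
  rw [norm_div, RCLike.norm_conj, norm_mul, Q.hu, one_mul, Complex.norm_real, Real.norm_eq_abs,
    abs_of_pos (by have := Q.μ_pos h; linarith)]

lemma norm_ζ_lt (m : Fin 4) {x : Fin 4 → ℝ} (h : Q.Good x) : ‖Q.ζ m x‖ < 1 := by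
  have hμ := Q.μ_pos h
  rw [Q.norm_ζ m h, div_lt_one (by linarith)]
  exact lt_of_lt_of_le h (Q.A_le_two_μ x)

lemma mem_slit (m : Fin 4) {x : Fin 4 → ℝ} (h : Q.Good x) : 1 + Q.ζ m x ∈ slitPlane := by
  have h1 := Q.norm_ζ_lt m h
  have h2 : |(Q.ζ m x).re| ≤ ‖Q.ζ m x‖ := Complex.abs_re_le_norm _
  have h3 := neg_le_of_abs_le h2
  left
  simp only [add_re, one_re]
  linarith

lemma continuousAt_ζ (m : Fin 4) {x : Fin 4 → ℝ} (h : Q.Good x) : ContinuousAt (Q.ζ m) x := by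
  unfold ζ
  apply ContinuousAt.div
  · exact (Complex.continuous_conj.comp (continuous_const.mul Q.continuous_B)).continuousAt
  · have := Q.continuous_μ
    fun_prop
  · have := Q.μ_pos h
    exact_mod_cast (by positivity : (2 * Q.μ x) ≠ 0)

lemma continuousAt_δ (m : Fin 4) {x : Fin 4 → ℝ} (h : Q.Good x) : ContinuousAt (Q.δ m) x := by
  unfold δ
  have h1 : ContinuousAt (fun y => 1 + Q.ζ m y) x := continuousAt_const.add (Q.continuousAt_ζ m h)
  exact ContinuousAt.comp (f := fun y => 1 + Q.ζ m y) (g := Complex.arg)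
    (Complex.continuousAt_arg (Q.mem_slit m h)) h1

/-- the point of the quadrilateral -/
lemma point (m : Fin 4) {x : Fin 4 → ℝ} (h : Q.Good x) {s φ a : ℝ} (hs : 0 < s)
    (ha : Q.u m = exp (a * I)) :
    ((s * conj (Q.B x)) / (2 * conj (((√(s * Q.μ x) : ℝ) : ℂ) * exp (φ * I)))
      + Q.u m * (((√(s * Q.μ x) : ℝ) : ℂ) * exp (φ * I)) : ℂ)
      = ((√(s * Q.V m x) : ℝ) : ℂ) * exp (((φ + a + Q.δ m x : ℝ) : ℂ) * I) := by
  have hμ := Q.μ_pos h
  set w : ℂ := ((√(s * Q.μ x) : ℝ) : ℂ) * exp (φ * I) with hw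
  have hsμ : 0 < s * Q.μ x := mul_pos hs hμ
  have hw2 : conj w * w = ((s * Q.μ x : ℝ) : ℂ) := by
    rw [← Complex.normSq_eq_conj_mul_self, Complex.normSq_eq_norm_sq, hw, norm_mul,
      Complex.norm_exp_ofReal_mul_I, mul_one, Complex.norm_real, Real.norm_eq_abs,
      abs_of_nonneg (Real.sqrt_nonneg _), Real.sq_sqrt hsμ.le]
  have hw0 : w ≠ 0 := by
    intro h0
    rw [h0, mul_zero] at hw2
    have : s * Q.μ x = 0 := by exact_mod_cast hw2.symm
    linarith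
  have hcw0 : conj w ≠ 0 := by simpa using hw0
  have hμ0 : (Q.μ x : ℂ) ≠ 0 := by exact_mod_cast hμ.ne'
  have hs0 : (s : ℂ) ≠ 0 := by exact_mod_cast hs.ne'
  have huu : conj (Q.u m) * Q.u m = 1 := by
    rw [← Complex.normSq_eq_conj_mul_self, Complex.normSq_eq_norm_sq, Q.hu]; simp
  -- factorisation
  have hfac : (s * conj (Q.B x)) / (2 * conj w) + Q.u m * w = Q.u m * w * (1 + Q.ζ m x) := by
    unfold ζ
    rw [map_mul (starRingEnd ℂ) (Q.u m) (Q.B x)]
    push_cast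
    have h2 : (s * conj (Q.B x)) / (2 * conj w) = s * conj (Q.B x) * w / (2 * (s * Q.μ x)) := by
      rw [div_eq_div_iff (mul_ne_zero two_ne_zero hcw0)
        (mul_ne_zero two_ne_zero (mul_ne_zero hs0 hμ0))]
      have : (s : ℂ) * Q.μ x = conj w * w := by rw [hw2]; push_cast; ring
      rw [this]; ring
    rw [h2]
    field_simp
    linear_combination (-(conj (Q.B x))) * huu
  rw [hfac]
  -- polar form
  have hpol : (1 + Q.ζ m x) = (‖1 + Q.ζ m x‖ : ℂ) * exp ((Q.δ m x : ℂ) * I) := by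
    unfold δ
    rw [Complex.norm_mul_exp_arg_mul_I]
  have hnorm : √(s * Q.μ x) * ‖1 + Q.ζ m x‖ = √(s * Q.V m x) := by
    have hV : s * Q.V m x = (s * Q.μ x) * ‖1 + Q.ζ m x‖ ^ 2 := by
      have e1 : ‖1 + Q.ζ m x‖ ^ 2 = 1 + 2 * (Q.ζ m x).re + ‖Q.ζ m x‖ ^ 2 := by
        rw [← Complex.normSq_eq_norm_sq, ← Complex.normSq_eq_norm_sq, Complex.normSq_apply,
          Complex.normSq_apply]
        simp only [add_re, add_im, one_re, one_im]
        ring
      have e2 : (Q.ζ m x).re = (Q.u m * Q.B x).re / (2 * Q.μ x) := by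
        unfold ζ
        rw [Complex.div_ofReal_re, Complex.conj_re]
      rw [e1, e2, Q.norm_ζ m h]
      have e3 := Q.μ_eq h
      unfold V
      field_simp
      linear_combination (-1 : ℝ) * e3
    rw [hV, Real.sqrt_mul hsμ.le, Real.sqrt_sq (norm_nonneg _)]
  rw [hpol, ha, hw]
  rw [← hnorm]
  push_cast
  have he : exp (((φ + a + Q.δ m x : ℝ) : ℂ) * I)
      = exp (φ * I) * exp (a * I) * exp ((Q.δ m x : ℂ) * I) := by
    rw [← Complex.exp_add, ← Complex.exp_add]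
    congr 1
    push_cast; ring
  push_cast at he
  rw [he]
  ring

lemma B_one : Q.B (fun _ => 1) = 0 := by
  unfold B; simp

lemma A_one : Q.A (fun _ => 1) = 1 := by
  unfold A; rw [B_one]; simp

lemma good_one : Q.Good (fun _ => 1) := by
  unfold Good; rw [B_one, A_one]; simp

lemma δ_one (m : Fin 4) : Q.δ m (fun _ => 1) = 0 := by
  unfold δ ζ
  rw [B_one]; simp

/-- near the vector `1` the phase corrections are small -/
lemma exists_box {ε : ℝ} (hε : 0 < ε) : ∃ η : ℝ, 0 < η ∧ η < 1 ∧ ∀ x : Fin 4 → ℝ,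
    (∀ i, |x i - 1| ≤ η) → Q.Good x ∧ ∀ m, |Q.δ m x| ≤ ε := by
  have h1 : ∀ᶠ x in 𝓝 (fun _ : Fin 4 => (1 : ℝ)), Q.Good x := by
    have hc : Continuous fun x => Q.A x - ‖Q.B x‖ := Q.continuous_A.sub Q.continuous_B.norm
    have h0 : (0 : ℝ) < Q.A (fun _ => 1) - ‖Q.B (fun _ => 1)‖ := by
      rw [B_one, A_one]; simp
    filter_upwards [hc.continuousAt.eventually (lt_mem_nhds h0)] with x hx
    unfold Good; linarith
  have h2 : ∀ᶠ x in 𝓝 (fun _ : Fin 4 => (1 : ℝ)), ∀ m, |Q.δ m x| < ε := by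
    rw [eventually_all]
    intro m
    have hc : ContinuousAt (fun x => |Q.δ m x|) (fun _ => 1) :=
      (Q.continuousAt_δ m Q.good_one).abs
    have h0 : |Q.δ m (fun _ => 1)| < ε := by rw [δ_one]; simpa using hε
    exact hc.eventually (gt_mem_nhds h0)
  obtain ⟨r, hr, hball⟩ := Metric.eventually_nhds_iff.mp (h1.and h2)
  refine ⟨min (r / 2) (1 / 2), by positivity, by
    have := min_le_right (r / 2) (1 / 2 : ℝ); linarith, fun x hx => ?_⟩
  have hd : dist x (fun _ => 1) < r := by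
    rw [dist_pi_lt_iff hr]
    intro i
    rw [Real.dist_eq]
    have := min_le_left (r / 2) (1 / 2 : ℝ)
    linarith [hx i]
  obtain ⟨a, b⟩ := hball hd
  exact ⟨a, fun m => (b m).le⟩

/-- **The geometric lemma.**  `f` is the squared radius of the arm as a function of the polar angle,
`a m` is the phase of the `m`-th vertex.  If the weighted sum of the values of `f` at the four
phases is nonpositive at one end of an interval of angles and nonnegative at the other one (robustly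
under phase errors of size `ε`), and if `f` is nearly constant on the pattern for all angles in
this interval, then the arm contains the vertices of a copy of the quadrilateral. -/
lemma exists_copy {ε η : ℝ} (hη : 0 < η)
    (hbox : ∀ x : Fin 4 → ℝ, (∀ i, |x i - 1| ≤ η) → Q.Good x ∧ ∀ m, |Q.δ m x| ≤ ε)
    {f : ℝ → ℝ} (hf : Continuous f) (hanti : Antitone f) (hpos : ∀ t, 0 < f t)
    {a : Fin 4 → ℝ} (ha : ∀ m, Q.u m = exp (a m * I)) {φ₀ φ₁ : ℝ}
    (hup : ∀ φ ∈ uIcc φ₀ φ₁, ∀ m, f (φ + a m - ε) ≤ (1 + η) * f φ)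
    (hlow : ∀ φ ∈ uIcc φ₀ φ₁, ∀ m, (1 - η) * f φ ≤ f (φ + a m + ε))
    (h0 : ∀ d : Fin 4 → ℝ, (∀ m, |d m| ≤ ε) →
      Q.σ 0 * f (φ₀ + a 0 + d 0) + Q.σ 1 * f (φ₀ + a 1 + d 1) + Q.σ 2 * f (φ₀ + a 2 + d 2)
        + Q.σ 3 * f (φ₀ + a 3 + d 3) ≤ 0)
    (h1 : ∀ d : Fin 4 → ℝ, (∀ m, |d m| ≤ ε) →
      0 ≤ Q.σ 0 * f (φ₁ + a 0 + d 0) + Q.σ 1 * f (φ₁ + a 1 + d 1) + Q.σ 2 * f (φ₁ + a 2 + d 2)
        + Q.σ 3 * f (φ₁ + a 3 + d 3)) :
    ∃ φ ∈ uIcc φ₀ φ₁, ∃ ψ : Fin 4 → ℝ, (∀ m, |ψ m - (φ + a m)| ≤ ε) ∧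
      ∃ c w : ℂ, w ≠ 0 ∧ ∀ m, c + Q.u m * w = ((√(f (ψ m)) : ℝ) : ℂ) * exp ((ψ m : ℝ) * I) := by
  set X : (Fin 4 → ℝ) → (Fin 4 → ℝ) := fun y i => 1 - η + 2 * η * y i with hX
  set Φ : (Fin 4 → ℝ) → ℝ := fun y => φ₀ + y 3 * (φ₁ - φ₀) with hΦ
  have hXbox : ∀ y : Fin 4 → ℝ, (∀ i, 0 ≤ y i ∧ y i ≤ 1) → ∀ i, |X y i - 1| ≤ η := by
    intro y hy i
    obtain ⟨p, q⟩ := hy i
    simp only [hX]
    rw [abs_le]
    constructor <;> nlinarith
  have hΦmem : ∀ y : Fin 4 → ℝ, (∀ i, 0 ≤ y i ∧ y i ≤ 1) → Φ y ∈ uIcc φ₀ φ₁ := by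
    intro y hy
    obtain ⟨p, q⟩ := hy 3
    rw [mem_uIcc]
    simp only [hΦ]
    rcases le_total φ₀ φ₁ with h | h
    · left
      constructor
      · nlinarith
      · nlinarith
    · right
      constructor
      · nlinarith
      · nlinarith
  set E : (Fin 4 → ℝ) → ℝ := fun y =>
      Q.σ 0 * f (Φ y + a 0 + Q.δ 0 (X y)) + Q.σ 1 * f (Φ y + a 1 + Q.δ 1 (X y))
        + Q.σ 2 * f (Φ y + a 2 + Q.δ 2 (X y)) + Q.σ 3 * f (Φ y + a 3 + Q.δ 3 (X y)) with hE
  set F : (Fin 4 → ℝ) → (Fin 4 → ℝ) := fun y i =>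
    if i = 3 then E y else X y i * f (Φ y) - f (Φ y + a i + Q.δ i (X y)) with hF
  have hXc : Continuous X := by simp only [hX]; fun_prop
  have hΦc : Continuous Φ := by simp only [hΦ]; fun_prop
  have hδc : ∀ m, ContinuousOn (fun y => Q.δ m (X y)) {y | ∀ i, 0 ≤ y i ∧ y i ≤ 1} := by
    intro m y hy
    have h2 := (Q.continuousAt_δ m (hbox (X y) (hXbox y hy)).1)
    exact (ContinuousAt.comp (f := X) (g := Q.δ m) h2 hXc.continuousAt).continuousWithinAt
  have hfc : ∀ m, ContinuousOn (fun y => f (Φ y + a m + Q.δ m (X y)))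
      {y | ∀ i, 0 ≤ y i ∧ y i ≤ 1} := by
    intro m
    exact hf.comp_continuousOn ((hΦc.add continuous_const).continuousOn.add (hδc m))
  obtain ⟨y, hy, hFy⟩ := Pool.Agent.Helper475.Miranda.poincare_miranda 4 F
    (by
      rw [continuousOn_pi]
      intro i
      by_cases hi : i = 3
      · simp only [hF, hi, if_true, hE]
        have := hfc 0; have := hfc 1; have := hfc 2; have := hfc 3
        fun_prop
      · simp only [hF, hi, if_false]
        have h3 := hfc i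
        have h4 : Continuous fun y => X y i * f (Φ y) := by
          have := (continuous_apply i).comp hXc
          exact this.mul (hf.comp hΦc)
        exact h4.continuousOn.sub h3)
    (by
      intro y hy i hi
      have hb := hbox (X y) (hXbox y hy)
      by_cases h3 : i = 3
      · subst h3
        simp only [hF, if_true, hE]
        have : Φ y = φ₀ := by simp only [hΦ, hi]; ring
        rw [this]
        exact h0 (fun m => Q.δ m (X y)) hb.2
      · simp only [hF, h3, if_false]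
        have e1 : X y i = 1 - η := by simp only [hX, hi]; ring
        rw [e1]
        have e2 := hlow (Φ y) (hΦmem y hy) i
        have e3 := (abs_le.mp (hb.2 i)).2
        have e4 := hanti (show Φ y + a i + Q.δ i (X y) ≤ Φ y + a i + ε by linarith)
        linarith)
    (by
      intro y hy i hi
      have hb := hbox (X y) (hXbox y hy)
      by_cases h3 : i = 3
      · subst h3
        simp only [hF, if_true, hE]
        have : Φ y = φ₁ := by simp only [hΦ, hi]; ring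
        rw [this]
        exact h1 (fun m => Q.δ m (X y)) hb.2
      · simp only [hF, h3, if_false]
        have e1 : X y i = 1 + η := by simp only [hX, hi]; ring
        rw [e1]
        have e2 := hup (Φ y) (hΦmem y hy) i
        have e3 := (abs_le.mp (hb.2 i)).1
        have e4 := hanti (show Φ y + a i - ε ≤ Φ y + a i + Q.δ i (X y) by linarith)
        linarith)
  have hb := hbox (X y) (hXbox y hy)
  have hs := hpos (Φ y)
  have k0 : X y 0 * f (Φ y) = f (Φ y + a 0 + Q.δ 0 (X y)) := by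
    have := congrFun hFy 0
    simp only [hF, Pi.zero_apply] at this
    rw [if_neg (by decide)] at this
    linarith
  have k1 : X y 1 * f (Φ y) = f (Φ y + a 1 + Q.δ 1 (X y)) := by
    have := congrFun hFy 1
    simp only [hF, Pi.zero_apply] at this
    rw [if_neg (by decide)] at this
    linarith
  have k2 : X y 2 * f (Φ y) = f (Φ y + a 2 + Q.δ 2 (X y)) := by
    have := congrFun hFy 2
    simp only [hF, Pi.zero_apply] at this
    rw [if_neg (by decide)] at this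
    linarith
  have k3 : E y = 0 := by
    have := congrFun hFy 3
    simpa only [hF, Pi.zero_apply, if_true] using this
  have k4 : Q.V 3 (X y) * f (Φ y) = f (Φ y + a 3 + Q.δ 3 (X y)) := by
    have e := Q.V_sum (X y)
    rw [Q.V_zero, Q.V_one, Q.V_two] at e
    simp only [hE] at k3
    rw [← k0, ← k1, ← k2] at k3
    have : Q.σ 3 * (Q.V 3 (X y) * f (Φ y)) = Q.σ 3 * f (Φ y + a 3 + Q.δ 3 (X y)) := by
      linear_combination (f (Φ y)) * e - k3
    exact mul_left_cancel₀ Q.hσ3 this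
  have hall : ∀ m, f (Φ y) * Q.V m (X y) = f (Φ y + a m + Q.δ m (X y)) := by
    intro m
    fin_cases m
    · show f (Φ y) * Q.V 0 (X y) = f (Φ y + a 0 + Q.δ 0 (X y))
      rw [← k0, Q.V_zero]; ring
    · show f (Φ y) * Q.V 1 (X y) = f (Φ y + a 1 + Q.δ 1 (X y))
      rw [← k1, Q.V_one]; ring
    · show f (Φ y) * Q.V 2 (X y) = f (Φ y + a 2 + Q.δ 2 (X y))
      rw [← k2, Q.V_two]; ring
    · show f (Φ y) * Q.V 3 (X y) = f (Φ y + a 3 + Q.δ 3 (X y))
      rw [← k4]; ring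
  refine ⟨Φ y, hΦmem y hy, fun m => Φ y + a m + Q.δ m (X y), fun m => ?_, ?_⟩
  · have := hb.2 m
    simpa using this
  · refine ⟨(f (Φ y) * conj (Q.B (X y))) /
        (2 * conj (((√(f (Φ y) * Q.μ (X y)) : ℝ) : ℂ) * exp ((Φ y : ℝ) * I))),
      ((√(f (Φ y) * Q.μ (X y)) : ℝ) : ℂ) * exp ((Φ y : ℝ) * I), ?_, fun m => ?_⟩
    · intro h
      have hμ := Q.μ_pos hb.1
      have h5 := mul_pos hs hμ
      rcases mul_eq_zero.mp h with h6 | h6
      · have : √(f (Φ y) * Q.μ (X y)) = 0 := by exact_mod_cast h6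
        rw [Real.sqrt_eq_zero h5.le] at this
        linarith
      · exact Complex.exp_ne_zero _ h6
    · have h7 := Q.point m hb.1 hs (ha m) (φ := Φ y)
      rw [h7, hall m]

end Quad

end Pool.Agent.H813.Spiral
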