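import Mathlib

/-!
# Area integrals along a monotone arm
-/

set_option autoImplicit false

namespace Pool.Agent.H813.Spiral

open Set Filter Topology MeasureTheory

/-- the area function of the arm -/
noncomputable def G (f : ℝ → ℝ) (x : ℝ) : ℝ := ∫ t in (0 : ℝ)..x, f t

lemma hasDerivAt_G {f : ℝ → ℝ} (hf : Continuous f) (x : ℝ) : HasDerivAt (G f) (f x) x :=
  intervalIntegral.integral_hasDerivAt_right (hf.intervalIntegrable _ _)
    hf.aestronglyMeasurable.stronglyMeasurableAtFilter hf.continuousAt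

lemma G_sub {f : ℝ → ℝ} (hf : Continuous f) (x y : ℝ) : G f y - G f x = ∫ t in x..y, f t := by
  unfold G
  exact intervalIntegral.integral_interval_sub_left (hf.intervalIntegrable _ _)
    (hf.intervalIntegrable _ _)

/-- concavity bound: the tangent lies above -/
lemma G_le {f : ℝ → ℝ} (hf : Continuous f) (hanti : Antitone f) (x y : ℝ) :
    G f y - G f x ≤ f x * (y - x) := by
  rw [G_sub hf]
  rcases le_total x y with h | h
  · have h1 : ∫ t in x..y, f t ≤ ∫ t in x..y, f x :=
      intervalIntegral.integral_mono_on h (hf.intervalIntegrable _ _)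
        (continuous_const.intervalIntegrable _ _) (fun t ht => hanti ht.1)
    rw [intervalIntegral.integral_const, smul_eq_mul] at h1
    linarith [mul_comm (y - x) (f x)]
  · rw [intervalIntegral.integral_symm]
    have h1 : ∫ t in y..x, f x ≤ ∫ t in y..x, f t :=
      intervalIntegral.integral_mono_on h (continuous_const.intervalIntegrable _ _)
        (hf.intervalIntegrable _ _) (fun t ht => hanti ht.2)
    rw [intervalIntegral.integral_const, smul_eq_mul] at h1
    nlinarith

/-- the lower bound, from the same inequality with the roles of the points exchanged -/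
lemma le_G {f : ℝ → ℝ} (hf : Continuous f) (hanti : Antitone f) (x y : ℝ) :
    f y * (y - x) ≤ G f y - G f x := by
  have := G_le hf hanti y x
  nlinarith

lemma tendsto_G_sub {f : ℝ → ℝ} (hf : Continuous f) (hanti : Antitone f)
    (hlim : Tendsto f atTop (𝓝 0)) (b : ℝ) :
    Tendsto (fun φ => G f (φ + b) - G f φ) atTop (𝓝 0) := by
  have h1 : Tendsto (fun φ => f φ * b) atTop (𝓝 0) := by
    simpa using hlim.mul_const b
  have h2 : Tendsto (fun φ => f (φ + b) * b) atTop (𝓝 0) := by
    have : Tendsto (fun φ : ℝ => φ + b) atTop atTop := tendsto_atTop_add_const_right _ _ tendsto_id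
    simpa using (hlim.comp this).mul_const b
  refine tendsto_of_tendsto_of_tendsto_of_le_of_le h2 h1 (fun φ => ?_) (fun φ => ?_)
  · have := le_G hf hanti φ (φ + b)
    simpa using this
  · have := G_le hf hanti φ (φ + b)
    simpa using this

/-- the weighted area -/
noncomputable def H (f : ℝ → ℝ) (σ b : Fin 4 → ℝ) (φ : ℝ) : ℝ :=
  σ 0 * G f (φ + b 0) + σ 1 * G f (φ + b 1) + σ 2 * G f (φ + b 2) + σ 3 * G f (φ + b 3)

lemma tendsto_H {f : ℝ → ℝ} (hf : Continuous f) (hanti : Antitone f)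
    (hlim : Tendsto f atTop (𝓝 0)) {σ : Fin 4 → ℝ} (hσ : σ 0 + σ 1 + σ 2 + σ 3 = 0)
    (b : Fin 4 → ℝ) : Tendsto (H f σ b) atTop (𝓝 0) := by
  have h : H f σ b = fun φ => σ 0 * (G f (φ + b 0) - G f φ) + σ 1 * (G f (φ + b 1) - G f φ)
      + σ 2 * (G f (φ + b 2) - G f φ) + σ 3 * (G f (φ + b 3) - G f φ) := by
    funext φ
    unfold H
    linear_combination (G f φ) * hσ
  rw [h]
  have k := fun m => (tendsto_G_sub hf hanti hlim (b m)).const_mul (σ m)
  simpa using (((k 0).add (k 1)).add (k 2)).add (k 3)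

lemma hasDerivAt_H {f : ℝ → ℝ} (hf : Continuous f) (σ b : Fin 4 → ℝ) (φ : ℝ) :
    HasDerivAt (H f σ b)
      (σ 0 * f (φ + b 0) + σ 1 * f (φ + b 1) + σ 2 * f (φ + b 2) + σ 3 * f (φ + b 3)) φ := by
  have k : ∀ m, HasDerivAt (fun φ => σ m * G f (φ + b m)) (σ m * f (φ + b m)) φ := by
    intro m
    have h1 : HasDerivAt (fun φ => φ + b m) 1 φ := (hasDerivAt_id φ).add_const _
    have h2 := (hasDerivAt_G hf (φ + b m)).comp φ h1
    simpa using h2.const_mul (σ m)
  exact (((k 0).add (k 1)).add (k 2)).add (k 3)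

/-- if the weighted sum of the values is nonnegative from `T` on, the weighted area is nonpositive
from `T` on, since it tends to `0` -/
lemma H_nonpos {f : ℝ → ℝ} (hf : Continuous f) (hanti : Antitone f)
    (hlim : Tendsto f atTop (𝓝 0)) {σ : Fin 4 → ℝ} (hσ : σ 0 + σ 1 + σ 2 + σ 3 = 0)
    {b : Fin 4 → ℝ} {T : ℝ}
    (h : ∀ φ, T ≤ φ →
      0 ≤ σ 0 * f (φ + b 0) + σ 1 * f (φ + b 1) + σ 2 * f (φ + b 2) + σ 3 * f (φ + b 3))
    {φ : ℝ} (hφ : T ≤ φ) : H f σ b φ ≤ 0 := by
  have hmono : MonotoneOn (H f σ b) (Ici T) := by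
    apply monotoneOn_of_deriv_nonneg (convex_Ici T)
    · exact fun x _ => (hasDerivAt_H hf σ b x).continuousAt.continuousWithinAt
    · exact fun x _ => (hasDerivAt_H hf σ b x).differentiableAt.differentiableWithinAt
    · intro x hx
      rw [interior_Ici] at hx
      rw [(hasDerivAt_H hf σ b x).deriv]
      exact h x (le_of_lt hx)
  refine ge_of_tendsto (tendsto_H hf hanti hlim hσ b) ?_
  filter_upwards [eventually_ge_atTop φ] with y hy
  exact hmono hφ (hφ.trans hy) hy

lemma H_nonneg {f : ℝ → ℝ} (hf : Continuous f) (hanti : Antitone f)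
    (hlim : Tendsto f atTop (𝓝 0)) {σ : Fin 4 → ℝ} (hσ : σ 0 + σ 1 + σ 2 + σ 3 = 0)
    {b : Fin 4 → ℝ} {T : ℝ}
    (h : ∀ φ, T ≤ φ →
      σ 0 * f (φ + b 0) + σ 1 * f (φ + b 1) + σ 2 * f (φ + b 2) + σ 3 * f (φ + b 3) ≤ 0)
    {φ : ℝ} (hφ : T ≤ φ) : 0 ≤ H f σ b φ := by
  have h1 := H_nonpos hf hanti hlim (σ := fun m => - σ m) (b := b) (T := T)
    (by linear_combination (-1 : ℝ) * hσ) (fun x hx => by have := h x hx; nlinarith) hφ
  have h2 : H f (fun m => - σ m) b φ = - H f σ b φ := by unfold H; ring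
  linarith

end Pool.Agent.H813.Spiral
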