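import Mathlib
import Pool.Agent.H813.SpiralGeom
import Pool.Agent.H813.SpiralInt

/-!
# Rate locking for rectangles
-/

set_option autoImplicit false

namespace Pool.Agent.H813.Spiral

open Complex Set Filter Topology
open scoped ComplexConjugate

/-- the arm with squared radius `f` contains, beyond the angle `T`, the vertices of a copy of the
quadrilateral `u` -/
def HasCopy (u : Fin 4 → ℂ) (f : ℝ → ℝ) (T : ℝ) : Prop :=
  ∃ ψ : Fin 4 → ℝ, (∀ m, T ≤ ψ m) ∧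
    ∃ c w : ℂ, w ≠ 0 ∧ ∀ m, c + u m * w = ((√(f (ψ m)) : ℝ) : ℂ) * exp ((ψ m : ℝ) * I)

/-- The alternative for an arm without copies: one of the two weighted areas has a constant
sign. -/
lemma alt (Q : Quad) (s0 : 0 < Q.σ 0) (s1 : Q.σ 1 < 0) (s2 : 0 < Q.σ 2) (s3 : Q.σ 3 < 0)
    {ε η : ℝ} (hη : 0 < η)
    (hbox : ∀ x : Fin 4 → ℝ, (∀ i, |x i - 1| ≤ η) → Q.Good x ∧ ∀ m, |Q.δ m x| ≤ ε)
    {f : ℝ → ℝ} (hf : Continuous f) (hanti : Antitone f) (hpos : ∀ t, 0 < f t)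
    (hlim : Tendsto f atTop (𝓝 0))
    {a : Fin 4 → ℝ} (ha : ∀ m, Q.u m = exp (a m * I)) {T T' : ℝ}
    (hT : ∀ m, T ≤ T' + a m - ε)
    (hup : ∀ φ, T' ≤ φ → ∀ m, f (φ + a m - ε) ≤ (1 + η) * f φ)
    (hlow : ∀ φ, T' ≤ φ → ∀ m, (1 - η) * f φ ≤ f (φ + a m + ε))
    (hno : ¬ HasCopy Q.u f T) :
    (∀ φ, T' ≤ φ → H f Q.σ ![a 0 - ε, a 1 + ε, a 2 - ε, a 3 + ε] φ ≤ 0) ∨
    (∀ φ, T' ≤ φ → 0 ≤ H f Q.σ ![a 0 + ε, a 1 - ε, a 2 + ε, a 3 - ε] φ) := by
  by_contra hcon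
  push Not at hcon
  obtain ⟨⟨x, hx, hx'⟩, ⟨y, hy, hy'⟩⟩ := hcon
  have e0 : ∃ φ₀, T' ≤ φ₀ ∧ Q.σ 0 * f (φ₀ + (a 0 - ε)) + Q.σ 1 * f (φ₀ + (a 1 + ε))
      + Q.σ 2 * f (φ₀ + (a 2 - ε)) + Q.σ 3 * f (φ₀ + (a 3 + ε)) < 0 := by
    by_contra h
    push Not at h
    have := H_nonpos hf hanti hlim Q.hσ (b := ![a 0 - ε, a 1 + ε, a 2 - ε, a 3 + ε]) (T := T')
      (fun φ hφ => by simpa using h φ hφ) hx
    linarith
  have e1 : ∃ φ₁, T' ≤ φ₁ ∧ 0 < Q.σ 0 * f (φ₁ + (a 0 + ε)) + Q.σ 1 * f (φ₁ + (a 1 - ε))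
      + Q.σ 2 * f (φ₁ + (a 2 + ε)) + Q.σ 3 * f (φ₁ + (a 3 - ε)) := by
    by_contra h
    push Not at h
    have := H_nonneg hf hanti hlim Q.hσ (b := ![a 0 + ε, a 1 - ε, a 2 + ε, a 3 - ε]) (T := T')
      (fun φ hφ => by simpa using h φ hφ) hy
    linarith
  obtain ⟨φ₀, h00, h01⟩ := e0
  obtain ⟨φ₁, h10, h11⟩ := e1
  have hge : ∀ φ ∈ uIcc φ₀ φ₁, T' ≤ φ := by
    intro φ hφ
    rw [mem_uIcc] at hφ
    rcases hφ with ⟨h, _⟩ | ⟨h, _⟩
    · linarith
    · linarith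
  obtain ⟨φ, hφ, ψ, hψ, c, w, hw, hcw⟩ := Q.exists_copy hη hbox hf hanti hpos ha
    (φ₀ := φ₀) (φ₁ := φ₁) (fun φ hφ => hup φ (hge φ hφ)) (fun φ hφ => hlow φ (hge φ hφ))
    (by
      intro d hd
      have k := fun m => abs_le.mp (hd m)
      have m0 := hanti (show φ₀ + (a 0 - ε) ≤ φ₀ + a 0 + d 0 by linarith [(k 0).1])
      have m1 := hanti (show φ₀ + a 1 + d 1 ≤ φ₀ + (a 1 + ε) by linarith [(k 1).2])
      have m2 := hanti (show φ₀ + (a 2 - ε) ≤ φ₀ + a 2 + d 2 by linarith [(k 2).1])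
      have m3 := hanti (show φ₀ + a 3 + d 3 ≤ φ₀ + (a 3 + ε) by linarith [(k 3).2])
      have n0 := mul_le_mul_of_nonneg_left m0 s0.le
      have n1 := mul_le_mul_of_nonpos_left m1 s1.le
      have n2 := mul_le_mul_of_nonneg_left m2 s2.le
      have n3 := mul_le_mul_of_nonpos_left m3 s3.le
      linarith)
    (by
      intro d hd
      have k := fun m => abs_le.mp (hd m)
      have m0 := hanti (show φ₁ + a 0 + d 0 ≤ φ₁ + (a 0 + ε) by linarith [(k 0).2])
      have m1 := hanti (show φ₁ + (a 1 - ε) ≤ φ₁ + a 1 + d 1 by linarith [(k 1).1])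
      have m2 := hanti (show φ₁ + a 2 + d 2 ≤ φ₁ + (a 2 + ε) by linarith [(k 2).2])
      have m3 := hanti (show φ₁ + (a 3 - ε) ≤ φ₁ + a 3 + d 3 by linarith [(k 3).1])
      have n0 := mul_le_mul_of_nonneg_left m0 s0.le
      have n1 := mul_le_mul_of_nonpos_left m1 s1.le
      have n2 := mul_le_mul_of_nonneg_left m2 s2.le
      have n3 := mul_le_mul_of_nonpos_left m3 s3.le
      linarith)
  refine hno ⟨ψ, fun m => ?_, c, w, hw, hcw⟩
  have h1 := (abs_le.mp (hψ m)).1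
  have h2 := hT m
  have h3 := hge φ hφ
  linarith

/-- iterated lower bound -/
lemma pow_bound {f : ℝ → ℝ} {r T : ℝ} (hr0 : 0 < r)
    (hr : ∀ φ, T ≤ φ → r * f φ ≤ f (φ + 2 * Real.pi)) (n : ℕ) :
    ∀ φ, T ≤ φ → r ^ n * f φ ≤ f (φ + 2 * Real.pi * n) := by
  induction n with
  | zero => intro φ _; simp
  | succ n ih =>
    intro φ hφ
    have h1 := ih φ hφ
    have hpi := Real.pi_pos
    have h0 : 0 ≤ 2 * Real.pi * n := by positivity
    have h2 := hr (φ + 2 * Real.pi * n) (by linarith)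
    have h3 : φ + 2 * Real.pi * ((n + 1 : ℕ) : ℝ) = φ + 2 * Real.pi * n + 2 * Real.pi := by
      push_cast; ring
    rw [h3]
    calc r ^ (n + 1) * f φ = r * (r ^ n * f φ) := by ring
      _ ≤ r * f (φ + 2 * Real.pi * n) := mul_le_mul_of_nonneg_left h1 hr0.le
      _ ≤ _ := h2

lemma pow_bound' {f : ℝ → ℝ} (hanti : Antitone f) {r T : ℝ} (hr0 : 0 < r)
    (hr : ∀ φ, T ≤ φ → r * f φ ≤ f (φ + 2 * Real.pi)) (n : ℕ) {φ y : ℝ} (hφ : T ≤ φ)
    (hy : y ≤ φ + 2 * Real.pi * n) : r ^ n * f φ ≤ f y :=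
  (pow_bound hr0 hr n φ hφ).trans (hanti hy)

/-- the largest number of turns on which the arm loses at most the factor `D` -/
lemma choose_N {f : ℝ → ℝ} (hpos : ∀ t, 0 < f t)
    (hlim : Tendsto f atTop (𝓝 0)) {r D T : ℝ} (hD : 0 < D) (hr0 : 0 < r)
    (hr : ∀ φ, T ≤ φ → r * f φ ≤ f (φ + 2 * Real.pi)) {n₁ : ℕ} (hn₁ : D ≤ r ^ n₁) (hr1 : r ≤ 1) :
    ∃ N : ℕ, n₁ ≤ N ∧ (∀ φ, T ≤ φ → D * f φ ≤ f (φ + 2 * Real.pi * N)) ∧
      ∃ t, T ≤ t ∧ f (t + 2 * Real.pi * (N + 1)) < D * f t := by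
  classical
  have hex : ∃ n : ℕ, ¬ (∀ φ, T ≤ φ → D * f φ ≤ f (φ + 2 * Real.pi * n)) := by
    have h1 : Tendsto (fun n : ℕ => f (T + 2 * Real.pi * n)) atTop (𝓝 0) := by
      apply hlim.comp
      apply tendsto_atTop_add_const_left
      exact Tendsto.const_mul_atTop (by positivity) tendsto_natCast_atTop_atTop
    have h2 : 0 < D * f T := mul_pos hD (hpos T)
    obtain ⟨n, hn⟩ := (h1.eventually (gt_mem_nhds h2)).exists
    refine ⟨n, fun h => ?_⟩
    have := h T le_rfl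
    linarith
  obtain ⟨n0, hn0, hmin⟩ : ∃ n0 : ℕ, (¬ (∀ φ, T ≤ φ → D * f φ ≤ f (φ + 2 * Real.pi * n0))) ∧
      ∀ m < n0, (∀ φ, T ≤ φ → D * f φ ≤ f (φ + 2 * Real.pi * m)) :=
    ⟨Nat.find hex, Nat.find_spec hex, fun m hm => not_not.mp (Nat.find_min hex hm)⟩
  have hle : ∀ m, m ≤ n₁ → (∀ φ, T ≤ φ → D * f φ ≤ f (φ + 2 * Real.pi * m)) := by
    intro m hm φ hφ
    have h1 := pow_bound hr0 hr m φ hφ
    have h2 : D ≤ r ^ m := hn₁.trans (pow_le_pow_of_le_one hr0.le hr1 hm)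
    exact (mul_le_mul_of_nonneg_right h2 (hpos φ).le).trans h1
  have hgt : n₁ < n0 := by
    by_contra h
    push Not at h
    exact hn0 (hle _ h)
  refine ⟨n0 - 1, by omega, hmin _ (by omega), ?_⟩
  push Not at hn0
  obtain ⟨t, ht, ht'⟩ := hn0
  refine ⟨t, ht, ?_⟩
  have h1 : (((n0 - 1 : ℕ) : ℝ) + 1) = (n0 : ℝ) := by
    have h2 : n0 - 1 + 1 = n0 := by omega
    exact_mod_cast h2
  rw [h1]
  exact ht'

/-- the vertices of a rectangle on the unit circle -/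
noncomputable def rectU (β : ℝ) : Fin 4 → ℂ := ![1, exp (β * I), -1, -exp (β * I)]

/-- the rectangle as a `Quad` -/
noncomputable def rectQ (β : ℝ) (hβ : 0 < β) (hβ' : β < Real.pi) : Quad where
  u := rectU β
  σ := ![1, -1, 1, -1]
  hu := by
    intro m
    fin_cases m
    · simp [rectU]
    · simp [rectU, Complex.norm_exp_ofReal_mul_I]
    · simp [rectU]
    · simp [rectU, Complex.norm_exp_ofReal_mul_I]
  hσ := by simp
  hσu := by simp [rectU]
  hσ3 := by simp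
  hΔ := by
    have h1 : 0 < Real.sin β := Real.sin_pos_of_pos_of_lt_pi hβ hβ'
    simp only [rectU, Matrix.cons_val_zero, Matrix.cons_val_one, Matrix.cons_val]
    have h2 : (exp (β * I)).re = Real.cos β := by
      rw [Complex.exp_ofReal_mul_I_re]
    have h3 : (exp (β * I)).im = Real.sin β := by
      rw [Complex.exp_ofReal_mul_I_im]
    simp only [mul_im, sub_re, sub_im, conj_re, conj_im, one_re, one_im, neg_re, neg_im, h2, h3]
    ring_nf
    simpa using h1.ne'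

/-- the arithmetic choice of the parameters -/
lemma choose_params {S κ : ℝ} (hκ : 1 < κ) {ε L : ℝ} (hε : 0 < ε)
    (h1 : S + 4 * ε < κ * (S - 4 * ε)) (hL : 0 < L) :
    ∃ A₀ : ℝ, ∀ A : ℝ, A₀ ≤ A → 2 * ε < A ∧
      κ * Real.log ((A + S - 2 * ε) / (A + 2 * ε)) ≤ L ∧
      Real.log ((A + S + 2 * ε) / (A - 2 * ε)) < κ * Real.log ((A + S - 2 * ε) / (A + 2 * ε)) := by
  set g := κ * (S - 4 * ε) - (S + 4 * ε) with hg
  have hgpos : 0 < g := by linarith
  have hS4 : 0 < S - 4 * ε := by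
    by_contra h
    push Not at h
    nlinarith
  set R := (S + 4 * ε) * (S - 2 * ε) + 2 * ε * κ * (S - 4 * ε) with hR
  refine ⟨max (2 * ε + 1) (max (κ * (S - 4 * ε) / L) (R / g + 1)), fun A hA => ?_⟩
  have hA1 : 2 * ε + 1 ≤ A := (le_max_left _ _).trans hA
  have hA2 : κ * (S - 4 * ε) / L ≤ A :=
    (le_max_left _ _).trans ((le_max_right _ _).trans hA)
  have hA3 : R / g + 1 ≤ A := (le_max_right _ _).trans ((le_max_right _ _).trans hA)
  have p1 : 0 < A + 2 * ε := by linarith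
  have p2 : 0 < A - 2 * ε := by linarith
  have p3 : 0 < A + S - 2 * ε := by linarith
  have p4 : 0 < A + S + 2 * ε := by linarith
  have q1 : Real.log ((A + S - 2 * ε) / (A + 2 * ε)) ≤ (S - 4 * ε) / (A + 2 * ε) := by
    have := Real.log_le_sub_one_of_pos (div_pos p3 p1)
    have e : (A + S - 2 * ε) / (A + 2 * ε) - 1 = (S - 4 * ε) / (A + 2 * ε) := by
      field_simp; ring
    linarith
  have q2 : (S - 4 * ε) / (A + S - 2 * ε) ≤ Real.log ((A + S - 2 * ε) / (A + 2 * ε)) := by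
    have := Real.one_sub_inv_le_log_of_pos (div_pos p3 p1)
    have e : 1 - ((A + S - 2 * ε) / (A + 2 * ε))⁻¹ = (S - 4 * ε) / (A + S - 2 * ε) := by
      rw [inv_div]; field_simp; ring
    linarith
  have q3 : Real.log ((A + S + 2 * ε) / (A - 2 * ε)) ≤ (S + 4 * ε) / (A - 2 * ε) := by
    have := Real.log_le_sub_one_of_pos (div_pos p4 p2)
    have e : (A + S + 2 * ε) / (A - 2 * ε) - 1 = (S + 4 * ε) / (A - 2 * ε) := by
      field_simp; ring
    linarith
  refine ⟨by linarith, ?_, ?_⟩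
  · have h2 : κ * ((S - 4 * ε) / (A + 2 * ε)) ≤ L := by
      rw [← mul_div_assoc, div_le_iff₀ p1]
      rw [div_le_iff₀ hL] at hA2
      nlinarith
    have h3 := mul_le_mul_of_nonneg_left q1 (by linarith : (0:ℝ) ≤ κ)
    linarith
  · have h2 : (S + 4 * ε) / (A - 2 * ε) < κ * ((S - 4 * ε) / (A + S - 2 * ε)) := by
      rw [← mul_div_assoc, div_lt_div_iff₀ p2 p3]
      have h4 : R < g * A := by
        have : R / g < A := by linarith
        rw [div_lt_iff₀ hgpos] at this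
        linarith
      rw [hR, hg] at h4
      nlinarith
    have h3 := mul_le_mul_of_nonneg_left q2 (by linarith : (0:ℝ) ≤ κ)
    linarith

/-- **Rate locking.**  For every `κ > 1` an arm whose turns are sufficiently nearly closed either
contains copies of the rectangle, or its rate of decay is the same everywhere up to the
factor `κ`. -/
theorem rect_locking {β : ℝ} (hβ : 0 < β) (hβ' : β < Real.pi) {κ : ℝ} (hκ : 1 < κ) :
    ∃ X > 0, ∃ r : ℝ, 0 < r ∧ r < 1 ∧ ∀ f : ℝ → ℝ, Continuous f → Antitone f → (∀ t, 0 < f t) →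
      Tendsto f atTop (𝓝 0) → ∀ T : ℝ, (∀ φ, T ≤ φ → r * f φ ≤ f (φ + 2 * Real.pi)) →
      ¬ HasCopy (rectU β) f T → ∃ N : ℕ, 1 ≤ N ∧ ∀ φ, T + 2 * Real.pi ≤ φ →
        Real.exp (-(κ * X)) * f φ ≤ f (φ + 2 * Real.pi * N) ∧
        f (φ + 2 * Real.pi * N) ≤ Real.exp (-X) * f φ := by
  have hpi := Real.pi_pos
  have hpi3 := Real.pi_gt_three
  set S : ℝ := 2 * Real.pi - 2 * β with hS
  have hSpos : 0 < S := by linarith
  set ε : ℝ := S * (κ - 1) / (8 * (κ + 1)) with hε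
  have hκ1 : 0 < κ + 1 := by linarith
  have hεpos : 0 < ε := by
    apply div_pos (mul_pos hSpos (by linarith)) (by linarith)
  have hε8 : 8 * ε < S := by
    have : ε * (8 * (κ + 1)) = S * (κ - 1) := by
      rw [hε]; field_simp
    nlinarith
  have hε1 : ε < 1 := by
    have : S < 2 * Real.pi := by linarith
    have := Real.pi_lt_d2
    linarith
  have hSε : S + 4 * ε < κ * (S - 4 * ε) := by
    have : ε * (8 * (κ + 1)) = S * (κ - 1) := by
      rw [hε]; field_simp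
    nlinarith
  obtain ⟨η, hη, hη1, hbox⟩ := (rectQ β hβ hβ').exists_box hεpos
  obtain ⟨A₀, hA₀⟩ := choose_params hκ hεpos hSε (L := Real.log (1 + η))
    (Real.log_pos (by linarith))
  obtain ⟨j, hj⟩ := exists_nat_gt (max A₀ 1)
  have hj1 : (1 : ℝ) < j := lt_of_le_of_lt (le_max_right _ _) hj
  have hjA : A₀ < j := lt_of_le_of_lt (le_max_left _ _) hj
  set a₁ : ℝ := β + 2 * Real.pi * j with ha₁
  have hja : (j : ℝ) ≤ a₁ := by nlinarith
  obtain ⟨hA1, hA2, hA3⟩ := hA₀ a₁ (by linarith)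
  set xp : ℝ := Real.log ((a₁ + S - 2 * ε) / (a₁ + 2 * ε)) with hxp
  set xm : ℝ := Real.log ((a₁ + S + 2 * ε) / (a₁ - 2 * ε)) with hxm
  have p1 : 0 < a₁ + 2 * ε := by linarith
  have p2 : 0 < a₁ - 2 * ε := by linarith
  have p3 : 0 < a₁ + S - 2 * ε := by linarith
  have p4 : 0 < a₁ + S + 2 * ε := by linarith
  have hxp0 : 0 < xp := by
    apply Real.log_pos
    rw [one_lt_div p1]; linarith
  have hxm0 : 0 < xm := by
    apply Real.log_pos
    rw [one_lt_div p2]; linarith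
  set g : ℝ := (κ * xp - xm) / (2 * j + 5) with hg
  have hj5 : (0 : ℝ) < 2 * j + 5 := by positivity
  have hgpos : 0 < g := div_pos (by linarith) hj5
  set r : ℝ := Real.exp (-g) with hr
  have hr0 : 0 < r := Real.exp_pos _
  have hr1 : r < 1 := by
    rw [hr, Real.exp_lt_one_iff]; linarith
  have hrpow : r ^ (2 * j + 5) = Real.exp (-(κ * xp - xm)) := by
    rw [hr, ← Real.exp_nat_mul]
    congr 1
    rw [hg]; push_cast; field_simp
  set D : ℝ := Real.exp (-(κ * xp)) with hD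
  have hD0 : 0 < D := Real.exp_pos _
  have hDr : D ≤ r ^ (2 * j + 5) := by
    rw [hrpow, hD, Real.exp_le_exp]; linarith
  have hD1 : D < 1 := by
    rw [hD, Real.exp_lt_one_iff]
    have := mul_pos (by linarith : 0 < κ) hxp0
    linarith
  have hDη : 1 ≤ (1 + η) * D := by
    have h1 : Real.exp (κ * xp) ≤ 1 + η := by
      rw [← Real.le_log_iff_exp_le (by linarith)]
      exact hA2
    have h2 : Real.exp (κ * xp) * D = 1 := by
      rw [hD, ← Real.exp_add]; simp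
    nlinarith
  have hDη' : 1 - η ≤ D := by
    nlinarith
  have hrD : D ≤ r := by
    have : r ^ (2 * j + 5) ≤ r ^ 1 := pow_le_pow_of_le_one hr0.le hr1.le (by omega)
    rw [pow_one] at this
    linarith
  refine ⟨xp, hxp0, r, hr0, hr1, ?_⟩
  intro f hf hanti hpos hlim T hrT hno
  set T' : ℝ := T + 2 * Real.pi with hT'
  obtain ⟨N, hN, hND, t, htT, ht⟩ := choose_N (T := T') hpos hlim hD0 hr0
    (fun φ hφ => hrT φ (by linarith)) hDr hr1.le
  refine ⟨N, by omega, fun φ hφ => ⟨hND φ hφ, ?_⟩⟩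
  -- the pattern
  have hNr : (2 * j + 5 : ℝ) ≤ N := by exact_mod_cast hN
  set a₃ : ℝ := β + Real.pi + 2 * Real.pi * (N - j - 2) with ha₃
  set a₂ : ℝ := 2 * Real.pi * N - Real.pi with ha₂
  set a : Fin 4 → ℝ := ![0, a₁, a₂, a₃] with ha
  have ea0 : a 0 = 0 := rfl
  have ea1 : a 1 = a₁ := rfl
  have ea2 : a 2 = a₂ := rfl
  have ea3 : a 3 = a₃ := rfl
  have hpiN : 2 * Real.pi * (2 * j + 5) ≤ 2 * Real.pi * N :=
    mul_le_mul_of_nonneg_left hNr (by positivity)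
  have hpij : 0 < 2 * Real.pi * j := by positivity
  have hexp2 : ∀ n : ℕ, exp (((2 * Real.pi * (n : ℝ) : ℝ) : ℂ) * I) = 1 := by
    intro n
    have := Complex.exp_nat_mul_two_pi_mul_I n
    rw [← this]
    congr 1; push_cast; ring
  have hexpi : exp ((Real.pi : ℂ) * I) = -1 := Complex.exp_pi_mul_I
  have haU : ∀ m, (rectQ β hβ hβ').u m = exp (a m * I) := by
    intro m
    fin_cases m
    · show (1 : ℂ) = exp (((0 : ℝ) : ℂ) * I)
      simp
    · show exp (β * I) = exp ((a₁ : ℂ) * I)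
      have : ((a₁ : ℝ) : ℂ) * I = β * I + ((2 * Real.pi * (j : ℝ) : ℝ) : ℂ) * I := by
        rw [ha₁]; push_cast; ring
      rw [this, Complex.exp_add, hexp2 j, mul_one]
    · show (-1 : ℂ) = exp ((a₂ : ℂ) * I)
      have : ((a₂ : ℝ) : ℂ) * I = ((2 * Real.pi * (N : ℝ) : ℝ) : ℂ) * I + -((Real.pi : ℂ) * I) := by
        rw [ha₂]; push_cast; ring
      rw [this, Complex.exp_add, hexp2 N, one_mul, Complex.exp_neg, hexpi]
      norm_num
    · show -exp (β * I) = exp ((a₃ : ℂ) * I)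
      have hsub : ((N - j - 2 : ℕ) : ℝ) = (N : ℝ) - j - 2 := by
        rw [Nat.cast_sub (by omega), Nat.cast_sub (by omega)]; push_cast; ring
      have : ((a₃ : ℝ) : ℂ) * I = β * I + (Real.pi : ℂ) * I
          + ((2 * Real.pi * ((N - j - 2 : ℕ) : ℝ) : ℝ) : ℂ) * I := by
        rw [ha₃, hsub]; push_cast; ring
      rw [this, Complex.exp_add, Complex.exp_add, hexp2, hexpi]
      ring
  have hnn : ∀ m, 0 ≤ a m := by
    intro m
    fin_cases m
    · exact le_rfl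
    · show 0 ≤ a₁; linarith
    · show 0 ≤ a₂; rw [ha₂]; nlinarith
    · show 0 ≤ a₃; rw [ha₃]; nlinarith
  have hnn' : ∀ m, m ≠ 0 → ε ≤ a m := by
    intro m hm
    fin_cases m
    · exact absurd rfl hm
    · show ε ≤ a₁; linarith
    · show ε ≤ a₂; rw [ha₂]; nlinarith
    · show ε ≤ a₃; rw [ha₃]; nlinarith
  have hle : ∀ m, a m + ε ≤ 2 * Real.pi * N := by
    intro m
    fin_cases m
    · show 0 + ε ≤ _; nlinarith
    · show a₁ + ε ≤ _; rw [ha₁]; nlinarith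
    · show a₂ + ε ≤ _; rw [ha₂]; linarith
    · show a₃ + ε ≤ _; rw [ha₃]; nlinarith
  have halt := alt (rectQ β hβ hβ') (by show (0 : ℝ) < 1; norm_num)
    (by show (-1 : ℝ) < 0; norm_num) (by show (0 : ℝ) < 1; norm_num)
    (by show (-1 : ℝ) < 0; norm_num) hη hbox hf hanti hpos hlim haU (T := T) (T' := T')
    (fun m => by have := hnn m; linarith)
    (fun φ hφ m => by
      by_cases hm : m = 0
      · subst hm
        rw [ea0, add_zero]
        have h1 := hrT (φ - ε) (by linarith)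
        have h2 : f (φ - ε + 2 * Real.pi) ≤ f φ := hanti (by linarith)
        have h3 : D * f (φ - ε) ≤ f φ :=
          (mul_le_mul_of_nonneg_right hrD (hpos _).le).trans (h1.trans h2)
        have h4 := mul_le_mul_of_nonneg_left h3 (by linarith : (0:ℝ) ≤ 1 + η)
        have h5 := hpos (φ - ε)
        nlinarith
      · have h1 : f (φ + a m - ε) ≤ f φ := hanti (by have := hnn' m hm; linarith)
        have h2 := hpos φ
        nlinarith)
    (fun φ hφ m => by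
      have h1 : f (φ + 2 * Real.pi * N) ≤ f (φ + a m + ε) := hanti (by have := hle m; linarith)
      have h2 := hND φ hφ
      have h3 := mul_le_mul_of_nonneg_right hDη' (hpos φ).le
      linarith)
    hno
  have hgap : a₂ - a₃ - a₁ = S := by rw [ha₂, ha₃, ha₁, hS]; ring
  rcases halt with hfast | hslow
  · have h1 := hfast (φ + ε) (by linarith)
    rw [ea0, ea1, ea2, ea3] at h1
    have h2 : G f (φ + ε + (0 - ε)) - G f (φ + ε + (a₁ + ε)) + G f (φ + ε + (a₂ - ε))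
        - G f (φ + ε + (a₃ + ε)) ≤ 0 := by
      have : H f (rectQ β hβ hβ').σ ![0 - ε, a₁ + ε, a₂ - ε, a₃ + ε] (φ + ε)
          = G f (φ + ε + (0 - ε)) - G f (φ + ε + (a₁ + ε)) + G f (φ + ε + (a₂ - ε))
        - G f (φ + ε + (a₃ + ε)) := by
        simp [H, rectQ]; ring
      linarith
    have h3 := le_G hf hanti (φ + ε + (a₃ + ε)) (φ + ε + (a₂ - ε))
    have h4 := G_le hf hanti (φ + ε + (0 - ε)) (φ + ε + (a₁ + ε))
    have h5 : f (φ + ε + (a₂ - ε)) * (a₁ + S - 2 * ε) ≤ f φ * (a₁ + 2 * ε) := by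
      have e1 : φ + ε + (a₂ - ε) - (φ + ε + (a₃ + ε)) = a₁ + S - 2 * ε := by linarith
      have e2 : φ + ε + (a₁ + ε) - (φ + ε + (0 - ε)) = a₁ + 2 * ε := by ring
      have e3 : φ + ε + (0 - ε) = φ := by ring
      rw [e1] at h3
      rw [e2] at h4
      rw [e3] at h4 h2
      linarith
    have h6 : f (φ + 2 * Real.pi * N) ≤ f (φ + ε + (a₂ - ε)) := hanti (by rw [ha₂]; linarith)
    have h7 : Real.exp (-xp) = (a₁ + 2 * ε) / (a₁ + S - 2 * ε) := by
      rw [Real.exp_neg, hxp, Real.exp_log (div_pos p3 p1), inv_div]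
    rw [h7, div_mul_eq_mul_div, le_div_iff₀ p3]
    nlinarith
  · exfalso
    have h1 := hslow t htT
    rw [ea0, ea1, ea2, ea3] at h1
    have h2 : 0 ≤ G f (t + (0 + ε)) - G f (t + (a₁ - ε)) + G f (t + (a₂ + ε))
        - G f (t + (a₃ - ε)) := by
      have : H f (rectQ β hβ hβ').σ ![0 + ε, a₁ - ε, a₂ + ε, a₃ - ε] t
          = G f (t + (0 + ε)) - G f (t + (a₁ - ε)) + G f (t + (a₂ + ε))
        - G f (t + (a₃ - ε)) := by
        simp [H, rectQ]; ring
      linarith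
    have h3 := G_le hf hanti (t + (a₃ - ε)) (t + (a₂ + ε))
    have h4 := le_G hf hanti (t + (0 + ε)) (t + (a₁ - ε))
    have h5 : f (t + (a₁ - ε)) * (a₁ - 2 * ε) ≤ f (t + (a₃ - ε)) * (a₁ + S + 2 * ε) := by
      have e1 : t + (a₂ + ε) - (t + (a₃ - ε)) = a₁ + S + 2 * ε := by linarith
      have e2 : t + (a₁ - ε) - (t + (0 + ε)) = a₁ - 2 * ε := by ring
      rw [e1] at h3
      rw [e2] at h4
      linarith
    have h6 : r ^ (j + 1) * f t ≤ f (t + (a₁ - ε)) := by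
      apply pow_bound' hanti hr0 hrT (j + 1) (by linarith)
      rw [ha₁]; push_cast; nlinarith
    have h7 : r ^ (j + 3) * f (t + (a₃ - ε)) ≤ f (t + 2 * Real.pi * (N + 1)) := by
      apply pow_bound' hanti hr0 hrT (j + 3)
      · have : ε ≤ a₃ := hnn' 3 (by decide)
        linarith
      · rw [ha₃]; push_cast; nlinarith
    have h8 : Real.exp (-xm) = (a₁ - 2 * ε) / (a₁ + S + 2 * ε) := by
      rw [Real.exp_neg, hxm, Real.exp_log (div_pos p4 p2), inv_div]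
    have h9 : Real.exp (-xm) * f (t + (a₁ - ε)) ≤ f (t + (a₃ - ε)) := by
      rw [h8, div_mul_eq_mul_div, div_le_iff₀ p4]
      linarith
    have h10 : Real.exp (-xm) * (r ^ (j + 1) * f t) ≤ f (t + (a₃ - ε)) :=
      (mul_le_mul_of_nonneg_left h6 (Real.exp_pos _).le).trans h9
    have h11 : r ^ (j + 3) * (Real.exp (-xm) * (r ^ (j + 1) * f t))
        ≤ f (t + 2 * Real.pi * (N + 1)) :=
      (mul_le_mul_of_nonneg_left h10 (pow_pos hr0 _).le).trans h7
    have h12 : D * f t ≤ r ^ (j + 3) * (Real.exp (-xm) * (r ^ (j + 1) * f t)) := by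
      have e1 : r ^ (j + 3) * (Real.exp (-xm) * (r ^ (j + 1) * f t))
          = (r ^ (2 * j + 4) * Real.exp (-xm)) * f t := by
        rw [show 2 * j + 4 = (j + 3) + (j + 1) by ring, pow_add]; ring
      have e2 : r ^ (2 * j + 5) ≤ r ^ (2 * j + 4) :=
        pow_le_pow_of_le_one hr0.le hr1.le (by omega)
      have e3 : D = r ^ (2 * j + 5) * Real.exp (-xm) := by
        rw [hrpow, hD, ← Real.exp_add]; congr 1; ring
      rw [e1, e3]
      apply mul_le_mul_of_nonneg_right _ (hpos t).le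
      exact mul_le_mul_of_nonneg_right e2 (Real.exp_pos _).le
    linarith

end Pool.Agent.H813.Spiral
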