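import Mathlib
import Pool.Agent.H813.SpiralRect

/-!
# Uniform decay of the arms without copies of a cyclic quadrilateral
-/

set_option autoImplicit false

namespace Pool.Agent.H813.Spiral

open Complex Set Filter Topology
open scoped ComplexConjugate

/-- bound for the slow case -/
lemma slow_bound {f : ℝ → ℝ} (hf : Continuous f) (hanti : Antitone f)
    {σ b : Fin 4 → ℝ} (hσ : σ 0 + σ 1 + σ 2 + σ 3 = 0) (s0 : 0 < σ 0) (s1 : σ 1 < 0)
    (s2 : 0 < σ 2) (s3 : σ 3 < 0) (hσ02 : σ 0 + σ 2 = 1) {t y K ω m₀ : ℝ} (hm0 : m₀ ≤ σ 0)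
    (hm2 : m₀ ≤ σ 2) (hK : 0 ≤ K) (h0 : t + b 0 + K ≤ y) (h2 : y ≤ t + b 2 - K)
    (h1 : |t + b 1 - y| ≤ 4) (h3 : |t + b 3 - y| ≤ 4)
    (ho1 : |f (t + b 1) - f y| ≤ ω) (ho3 : |f (t + b 3) - f y| ≤ ω) :
    H f σ b t ≤ f y * (σ 0 * b 0 + σ 1 * b 1 + σ 2 * b 2 + σ 3 * b 3) + 4 * ω
      - m₀ * K * (f (t + b 0 + K) - f (t + b 2 - K)) := by
  have a1 := le_G hf hanti (t + b 0) (t + b 0 + K)
  have a2 := G_le hf hanti y (t + b 0 + K)
  have a3 := G_le hf hanti (t + b 2 - K) (t + b 2)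
  have a4 := G_le hf hanti y (t + b 2 - K)
  have a5 := le_G hf hanti y (t + b 1)
  have a6 := le_G hf hanti y (t + b 3)
  have k1 : f y * (t + b 1 - y) - 4 * ω ≤ f (t + b 1) * (t + b 1 - y) := by
    have e : |(f (t + b 1) - f y) * (t + b 1 - y)| ≤ ω * 4 := by
      rw [abs_mul]
      exact mul_le_mul ho1 h1 (abs_nonneg _) ((abs_nonneg _).trans ho1)
    have := neg_le_of_abs_le e
    linarith
  have k3 : f y * (t + b 3 - y) - 4 * ω ≤ f (t + b 3) * (t + b 3 - y) := by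
    have e : |(f (t + b 3) - f y) * (t + b 3 - y)| ≤ ω * 4 := by
      rw [abs_mul]
      exact mul_le_mul ho3 h3 (abs_nonneg _) ((abs_nonneg _).trans ho3)
    have := neg_le_of_abs_le e
    linarith
  have m1 : G f (t + b 0) - G f y ≤ f y * (t + b 0 - y) + K * (f y - f (t + b 0 + K)) := by
    have e : t + b 0 + K - (t + b 0) = K := by ring
    rw [e] at a1
    nlinarith
  have m2 : G f (t + b 2) - G f y ≤ f y * (t + b 2 - y) - K * (f y - f (t + b 2 - K)) := by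
    have e : t + b 2 - (t + b 2 - K) = K := by ring
    rw [e] at a3
    nlinarith
  have m3 : f y * (t + b 1 - y) - 4 * ω ≤ G f (t + b 1) - G f y := k1.trans a5
  have m4 : f y * (t + b 3 - y) - 4 * ω ≤ G f (t + b 3) - G f y := k3.trans a6
  have n0 := mul_le_mul_of_nonneg_left m1 s0.le
  have n2 := mul_le_mul_of_nonneg_left m2 s2.le
  have n1 := mul_le_mul_of_nonpos_left m3 s1.le
  have n3 := mul_le_mul_of_nonpos_left m4 s3.le
  have c1 : 0 ≤ f (t + b 0 + K) - f y := by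
    have := hanti h0; linarith
  have c2 : 0 ≤ f y - f (t + b 2 - K) := by
    have := hanti h2; linarith
  have d1 : m₀ * (K * (f (t + b 0 + K) - f y)) ≤ σ 0 * (K * (f (t + b 0 + K) - f y)) :=
    mul_le_mul_of_nonneg_right hm0 (mul_nonneg hK c1)
  have d2 : m₀ * (K * (f y - f (t + b 2 - K))) ≤ σ 2 * (K * (f y - f (t + b 2 - K))) :=
    mul_le_mul_of_nonneg_right hm2 (mul_nonneg hK c2)
  have hH : H f σ b t = σ 0 * (G f (t + b 0) - G f y) + σ 1 * (G f (t + b 1) - G f y)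
      + σ 2 * (G f (t + b 2) - G f y) + σ 3 * (G f (t + b 3) - G f y) := by
    unfold H
    linear_combination (G f y) * hσ
  have hω : σ 1 * (-4 * ω) + σ 3 * (-4 * ω) = 4 * ω := by
    have : σ 1 + σ 3 = -1 := by linarith
    linear_combination (-4 * ω) * this
  have hsum : σ 0 * (f y * (t + b 0 - y)) + σ 1 * (f y * (t + b 1 - y))
      + σ 2 * (f y * (t + b 2 - y)) + σ 3 * (f y * (t + b 3 - y))
      = f y * (σ 0 * b 0 + σ 1 * b 1 + σ 2 * b 2 + σ 3 * b 3) := by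
    linear_combination (f y * (t - y)) * hσ
  rw [hH]
  linarith

/-- bound for the fast case -/
lemma fast_bound {f : ℝ → ℝ} (hf : Continuous f) (hanti : Antitone f)
    {σ b : Fin 4 → ℝ} (hσ : σ 0 + σ 1 + σ 2 + σ 3 = 0) (s0 : 0 < σ 0) (s1 : σ 1 < 0)
    (s2 : 0 < σ 2) (s3 : σ 3 < 0) (hσ02 : σ 0 + σ 2 = 1) {φ P M : ℝ} (hP : 0 ≤ P)
    (hbl : ∀ m, -P ≤ b m) (hbu : ∀ m, b m ≤ M) (hb1 : 0 ≤ b 1) (hb3 : 0 ≤ b 3)
    (hH : H f σ b φ ≤ 0) :
    f (φ + M) * (σ 0 * b 0 + σ 1 * b 1 + σ 2 * b 2 + σ 3 * b 3)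
      ≤ (f (φ - P) - f (φ + M)) * (P + M) := by
  have hM : 0 ≤ M := hb1.trans (hbu 1)
  have hhl : f (φ + M) ≤ f (φ - P) := hanti (by linarith)
  have up : ∀ m, 0 ≤ b m → G f (φ + b m) - G f φ ≤ f (φ + M) * b m
      + (f (φ - P) - f (φ + M)) * M := by
    intro m hm
    have h1 := G_le hf hanti φ (φ + b m)
    have h2 : f φ ≤ f (φ - P) := hanti (by linarith)
    have h3 := hbu m
    have e : φ + b m - φ = b m := by ring
    rw [e] at h1
    nlinarith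
  have low : ∀ m, f (φ + M) * b m - (f (φ - P) - f (φ + M)) * P ≤ G f (φ + b m) - G f φ := by
    intro m
    have h1 := le_G hf hanti φ (φ + b m)
    have e : φ + b m - φ = b m := by ring
    rw [e] at h1
    have h2 := hbl m
    have h3 := hbu m
    rcases le_total 0 (b m) with h | h
    · have h4 : f (φ + M) ≤ f (φ + b m) := hanti (by linarith)
      nlinarith
    · have h4 : f (φ + b m) ≤ f (φ - P) := hanti (by linarith)
      nlinarith
  have n0 := mul_le_mul_of_nonneg_left (low 0) s0.le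
  have n2 := mul_le_mul_of_nonneg_left (low 2) s2.le
  have n1 := mul_le_mul_of_nonpos_left (up 1 hb1) s1.le
  have n3 := mul_le_mul_of_nonpos_left (up 3 hb3) s3.le
  have hHe : H f σ b φ = σ 0 * (G f (φ + b 0) - G f φ) + σ 1 * (G f (φ + b 1) - G f φ)
      + σ 2 * (G f (φ + b 2) - G f φ) + σ 3 * (G f (φ + b 3) - G f φ) := by
    unfold H
    linear_combination (G f φ) * hσ
  have hs13 : σ 1 + σ 3 = -1 := by linarith
  have q1 : σ 1 * ((f (φ - P) - f (φ + M)) * M) + σ 3 * ((f (φ - P) - f (φ + M)) * M)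
      = -((f (φ - P) - f (φ + M)) * M) := by
    linear_combination ((f (φ - P) - f (φ + M)) * M) * hs13
  have q2 : σ 0 * ((f (φ - P) - f (φ + M)) * P) + σ 2 * ((f (φ - P) - f (φ + M)) * P)
      = (f (φ - P) - f (φ + M)) * P := by
    linear_combination ((f (φ - P) - f (φ + M)) * P) * hσ02
  rw [hHe] at hH
  linarith

/-- the choice of the middle turn number -/
lemma choose_j {σ₀ σ₂ m₀ Sβ : ℝ} {k N : ℕ} (hs : σ₀ + σ₂ = 1) (hm0 : m₀ ≤ σ₀) (hm2 : m₀ ≤ σ₂)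
    (hm₀pos : 0 < m₀) (hSβl : -(2 * Real.pi) ≤ Sβ) (hSβu : Sβ ≤ 2 * Real.pi)
    (hN2 : (k + 3 : ℝ) < m₀ * (N - 2)) :
    ∃ j : ℕ, (k + 1 : ℝ) ≤ j ∧ (j : ℝ) ≤ N - 3 - k - 1 ∧
      1 ≤ Sβ + 2 * Real.pi * (σ₂ * (N - 2)) - 2 * Real.pi * j ∧
      Sβ + 2 * Real.pi * (σ₂ * (N - 2)) - 2 * Real.pi * j ≤ 1 + 2 * Real.pi := by
  have hpi := Real.pi_pos
  have hpi3 := Real.pi_gt_three
  have hk0 : (0 : ℝ) ≤ k := Nat.cast_nonneg k
  set Z : ℝ := (Sβ + 2 * Real.pi * (σ₂ * (N - 2)) - 1) / (2 * Real.pi) with hZ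
  have hZeq : 2 * Real.pi * Z = Sβ + 2 * Real.pi * (σ₂ * (N - 2)) - 1 := by
    rw [hZ]; field_simp
  clear_value Z
  have hN20 : 0 < (N : ℝ) - 2 := by
    by_contra h
    push Not at h
    have : m₀ * ((N : ℝ) - 2) ≤ 0 := mul_nonpos_of_nonneg_of_nonpos hm₀pos.le h
    linarith
  have hσ2N : (k + 3 : ℝ) < σ₂ * (N - 2) :=
    lt_of_lt_of_le hN2 (mul_le_mul_of_nonneg_right hm2 hN20.le)
  have hσ0N : (k + 3 : ℝ) < σ₀ * (N - 2) :=
    lt_of_lt_of_le hN2 (mul_le_mul_of_nonneg_right hm0 hN20.le)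
  have hZl : (k + 1 : ℝ) ≤ Z := by
    have : 2 * Real.pi * (k + 1) ≤ 2 * Real.pi * Z := by
      rw [hZeq]
      have := mul_le_mul_of_nonneg_left hσ2N.le (by positivity : 0 ≤ 2 * Real.pi)
      linarith
    exact le_of_mul_le_mul_left this (by positivity)
  have hZu : Z ≤ N - 3 - k - 1 := by
    have : 2 * Real.pi * Z ≤ 2 * Real.pi * (N - 3 - k - 1) := by
      rw [hZeq]
      have h1 : σ₂ * ((N : ℝ) - 2) = (N - 2) - σ₀ * (N - 2) := by
        linear_combination ((N : ℝ) - 2) * hs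
      rw [h1]
      have := mul_le_mul_of_nonneg_left hσ0N.le (by positivity : 0 ≤ 2 * Real.pi)
      linarith
    exact le_of_mul_le_mul_left this (by positivity)
  have hZ0 : 0 ≤ Z := by linarith
  have hj1 : (⌊Z⌋₊ : ℝ) ≤ Z := Nat.floor_le hZ0
  have hj2 : Z < ⌊Z⌋₊ + 1 := Nat.lt_floor_add_one Z
  have hjk : k + 1 ≤ ⌊Z⌋₊ := by
    apply Nat.le_floor
    push_cast; exact hZl
  refine ⟨⌊Z⌋₊, by exact_mod_cast hjk, hj1.trans hZu, ?_, ?_⟩
  · have := mul_le_mul_of_nonneg_left hj1 (by positivity : 0 ≤ 2 * Real.pi)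
    linarith
  · have := mul_le_mul_of_nonneg_left hj2.le (by positivity : 0 ≤ 2 * Real.pi)
    linarith

/-- the choice of the constants -/
lemma choose_r {η m₀ : ℝ} (hη : 0 < η) (hη1 : η < 1) (hm₀ : 0 < m₀) :
    ∃ D r : ℝ, ∃ k n₁ : ℕ, 0 < D ∧ (1 + η) * D = 1 ∧ D < 1 ∧ 1 - η ≤ D ∧ 0 < r ∧ r < 1 ∧
      D ≤ r ∧ D ≤ r ^ n₁ ∧ (1 + D) / 2 ≤ r ^ (2 * k + 5) ∧
      12 < m₀ * (2 * Real.pi * k) * ((1 - D) / 2) ∧ 
      ∀ N : ℕ, n₁ ≤ N → (k + 3 : ℝ) < m₀ * (N - 2) := by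
  have hpi := Real.pi_pos
  set D : ℝ := (1 + η)⁻¹ with hD
  have hD0 : 0 < D := by positivity
  have hDη : (1 + η) * D = 1 := by rw [hD]; field_simp
  clear_value D
  have hD1 : D < 1 := by nlinarith
  have hDη' : 1 - η ≤ D := by nlinarith
  obtain ⟨k, hk⟩ := exists_nat_gt (12 / (m₀ * Real.pi * (1 - D)))
  obtain ⟨n₀, hn₀⟩ := exists_nat_gt ((k + 3) / m₀)
  set M : ℕ := (n₀ + 2) + 2 * k + 5 with hM
  have hMpos : (0 : ℝ) < M := by rw [hM]; push_cast; positivity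
  set r : ℝ := Real.exp (Real.log ((1 + D) / 2) / M) with hr
  have hr0 : 0 < r := Real.exp_pos _
  have hD2 : 0 < (1 + D) / 2 := by linarith
  have hrM : r ^ M = (1 + D) / 2 := by
    rw [hr, ← Real.exp_nat_mul, mul_div_cancel₀ _ hMpos.ne', Real.exp_log hD2]
  have hr1 : r < 1 := by
    rw [hr, Real.exp_lt_one_iff]
    exact div_neg_of_neg_of_pos (Real.log_neg hD2 (by linarith)) hMpos
  clear_value r
  refine ⟨D, r, k, n₀ + 2, hD0, hDη, hD1, hDη', hr0, hr1, ?_, ?_, ?_, ?_, ?_⟩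
  · have : r ^ M ≤ r ^ 1 := pow_le_pow_of_le_one hr0.le hr1.le (by omega)
    rw [pow_one] at this
    linarith
  · have : r ^ M ≤ r ^ (n₀ + 2) := pow_le_pow_of_le_one hr0.le hr1.le (by omega)
    linarith
  · rw [← hrM]
    exact pow_le_pow_of_le_one hr0.le hr1.le (by omega)
  · have hpos' : 0 < m₀ * Real.pi * (1 - D) := mul_pos (mul_pos hm₀ hpi) (by linarith)
    rw [div_lt_iff₀ hpos'] at hk
    linarith
  · intro N hN
    have hNr : (n₀ : ℝ) + 2 ≤ N := by exact_mod_cast hN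
    rw [div_lt_iff₀ hm₀] at hn₀
    nlinarith

/-- the slow case cannot occur -/
lemma slow_contra {f : ℝ → ℝ} (hf : Continuous f) (hanti : Antitone f) (hpos : ∀ t, 0 < f t)
    {σ β a : Fin 4 → ℝ} (hσ : σ 0 + σ 1 + σ 2 + σ 3 = 0) (s0 : 0 < σ 0) (s1 : σ 1 < 0)
    (s2 : 0 < σ 2) (s3 : σ 3 < 0) (hσ02 : σ 0 + σ 2 = 1) {m₀ : ℝ} (hm0 : m₀ ≤ σ 0)
    (hm2 : m₀ ≤ σ 2) (hm₀ : 0 < m₀) {r D : ℝ} {k j N : ℕ} (hr0 : 0 < r) (hr1 : r < 1)
    (hrk : (1 + D) / 2 ≤ r ^ (2 * k + 5)) (hk : 12 < m₀ * (2 * Real.pi * k) * ((1 - D) / 2))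
    (hβl : ∀ m, -Real.pi ≤ β m) (hβu : ∀ m, β m ≤ Real.pi)
    (ea0 : a 0 = β 0) (ea1 : a 1 = β 1 + 2 * Real.pi * j) (ea2 : a 2 = β 2 + 2 * Real.pi * (N - 2))
    (ea3 : a 3 = β 3 + 2 * Real.pi * j) (hjk : (k + 1 : ℝ) ≤ j) (hjN : (j : ℝ) ≤ N - 3 - k - 1)
    (hSl : 1 ≤ σ 0 * a 0 + σ 1 * a 1 + σ 2 * a 2 + σ 3 * a 3)
    (hSu : σ 0 * a 0 + σ 1 * a 1 + σ 2 * a 2 + σ 3 * a 3 ≤ 1 + 2 * Real.pi)
    {T t : ℝ} (hrT : ∀ φ, T ≤ φ → r * f φ ≤ f (φ + 2 * Real.pi)) (htT : T + 2 * Real.pi ≤ t)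
    (ht : f (t + 2 * Real.pi * (N + 1)) < D * f t)
    (hH : 0 ≤ H f σ ![a 0 + 1 / 4, a 1 - 1 / 4, a 2 + 1 / 4, a 3 - 1 / 4] t) : False := by
  have hpi := Real.pi_pos
  have hpi3 := Real.pi_gt_three
  have hpi4 := Real.pi_lt_d2
  have hk0 : (0 : ℝ) ≤ k := Nat.cast_nonneg k
  have hpk : 0 ≤ 2 * Real.pi * (k : ℝ) := by positivity
  have hpij : 2 * Real.pi * (k + 1) ≤ 2 * Real.pi * j :=
    mul_le_mul_of_nonneg_left hjk (by positivity)
  have hpiN : 2 * Real.pi * j ≤ 2 * Real.pi * (N - 3 - k - 1) :=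
    mul_le_mul_of_nonneg_left hjN (by positivity)
  have hft := hpos t
  set b : Fin 4 → ℝ := ![a 0 + 1 / 4, a 1 - 1 / 4, a 2 + 1 / 4, a 3 - 1 / 4] with hb
  have eb0 : b 0 = β 0 + 1 / 4 := by rw [← ea0]; rfl
  have eb1 : b 1 = β 1 + 2 * Real.pi * j - 1 / 4 := by rw [← ea1]; rfl
  have eb2 : b 2 = β 2 + 2 * Real.pi * (N - 2) + 1 / 4 := by rw [← ea2]; rfl
  have eb3 : b 3 = β 3 + 2 * Real.pi * j - 1 / 4 := by rw [← ea3]; rfl
  have h3 : σ 0 * b 0 + σ 1 * b 1 + σ 2 * b 2 + σ 3 * b 3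
        = σ 0 * a 0 + σ 1 * a 1 + σ 2 * a 2 + σ 3 * a 3 + 1 / 2 := by
    rw [eb0, eb1, eb2, eb3, ea0, ea1, ea2, ea3]
    linear_combination (1 / 2 : ℝ) * hσ02 - (1 / 4 : ℝ) * hσ
  clear_value b
  have b0l := hβl 0
  have b0u := hβu 0
  have b1l := hβl 1
  have b1u := hβu 1
  have b2l := hβl 2
  have b3l := hβl 3
  have b3u := hβu 3
  have hr2 : r ^ 2 ≤ 1 := pow_le_one₀ hr0.le hr1.le
  have hosc : ∀ z, t + 2 * Real.pi * j - 2 * Real.pi ≤ z → z ≤ t + 2 * Real.pi * j + 2 * Real.pi →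
      |f z - f (t + 2 * Real.pi * j)| ≤ (1 - r ^ 2) * f t := by
    intro z hz1 hz2
    have g1 : f z ≤ f (t + 2 * Real.pi * j - 2 * Real.pi) := hanti hz1
    have g2 : f (t + 2 * Real.pi * j + 2 * Real.pi) ≤ f z := hanti hz2
    have g3 : f (t + 2 * Real.pi * j) ≤ f (t + 2 * Real.pi * j - 2 * Real.pi) :=
      hanti (by linarith)
    have g4 : f (t + 2 * Real.pi * j + 2 * Real.pi) ≤ f (t + 2 * Real.pi * j) :=
      hanti (by linarith)
    have g5 : r ^ 2 * f (t + 2 * Real.pi * j - 2 * Real.pi)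
        ≤ f (t + 2 * Real.pi * j + 2 * Real.pi) := by
      apply pow_bound' hanti hr0 hrT 2
      · linarith
      · push_cast; linarith
    have g6 : f (t + 2 * Real.pi * j - 2 * Real.pi) ≤ f t := hanti (by linarith)
    have g8 : (1 - r ^ 2) * f (t + 2 * Real.pi * j - 2 * Real.pi) ≤ (1 - r ^ 2) * f t :=
      mul_le_mul_of_nonneg_left g6 (by linarith)
    rw [abs_le]
    constructor
    · linarith
    · linarith
  have hfy : f (t + 2 * Real.pi * j) ≤ f t := hanti (by linarith)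
  have h2 := slow_bound hf hanti hσ s0 s1 s2 s3 hσ02 (b := b) (t := t)
    (y := t + 2 * Real.pi * j)
    (K := 2 * Real.pi * k) (ω := (1 - r ^ 2) * f t) (m₀ := m₀) hm0 hm2 hpk
    (by rw [eb0]; linarith)
    (by rw [eb2]; linarith)
    (by
      rw [eb1, abs_le]
      constructor <;> linarith)
    (by
      rw [eb3, abs_le]
      constructor <;> linarith)
    (by
      apply hosc
      · rw [eb1]; linarith
      · rw [eb1]; linarith)
    (by
      apply hosc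
      · rw [eb3]; linarith
      · rw [eb3]; linarith)
  rw [h3] at h2
  have h4 : f (t + 2 * Real.pi * j) *
      (σ 0 * a 0 + σ 1 * a 1 + σ 2 * a 2 + σ 3 * a 3 + 1 / 2) ≤ f t * 8 := by
    apply mul_le_mul hfy _ _ hft.le
    · linarith
    · linarith
  have h5 : 4 * ((1 - r ^ 2) * f t) ≤ 4 * f t := by
    have : 0 ≤ r ^ 2 * f t := by positivity
    linarith
  have h6 : r ^ (k + 1) * f t ≤ f (t + b 0 + 2 * Real.pi * k) := by
    apply pow_bound' hanti hr0 hrT (k + 1) (by linarith)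
    rw [eb0]; push_cast; linarith
  have h7 : r ^ (k + 4) * f (t + b 2 - 2 * Real.pi * k) ≤ f (t + 2 * Real.pi * (N + 1)) := by
    apply pow_bound' hanti hr0 hrT (k + 4)
    · rw [eb2]; linarith
    · rw [eb2]; push_cast; linarith
  have hd0 : f (t + b 2 - 2 * Real.pi * k) ≤ f (t + b 0 + 2 * Real.pi * k) := by
    apply hanti
    rw [eb0, eb2]; linarith
  set d : ℝ := f (t + b 0 + 2 * Real.pi * k) - f (t + b 2 - 2 * Real.pi * k) with hd
  have h8 : (1 - D) / 2 * f t ≤ r ^ (k + 4) * d := by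
    have e1 : r ^ (k + 4) * (r ^ (k + 1) * f t) ≤ r ^ (k + 4) * f (t + b 0 + 2 * Real.pi * k) :=
      mul_le_mul_of_nonneg_left h6 (pow_pos hr0 _).le
    have e2 : r ^ (k + 4) * (r ^ (k + 1) * f t) = r ^ (2 * k + 5) * f t := by
      rw [show 2 * k + 5 = (k + 4) + (k + 1) by ring, pow_add]; ring
    have e3 := mul_le_mul_of_nonneg_right hrk hft.le
    rw [hd, mul_sub]
    linarith
  have hd0' : 0 ≤ d := by linarith
  have h9 : (1 - D) / 2 * f t ≤ d := by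
    have : r ^ (k + 4) * d ≤ 1 * d :=
      mul_le_mul_of_nonneg_right (pow_le_one₀ hr0.le hr1.le) hd0'
    linarith
  clear_value d
  have h11 : m₀ * (2 * Real.pi * k) * ((1 - D) / 2 * f t) ≤ m₀ * (2 * Real.pi * k) * d :=
    mul_le_mul_of_nonneg_left h9 (mul_nonneg hm₀.le hpk)
  have h12 : 12 * f t < m₀ * (2 * Real.pi * k) * ((1 - D) / 2 * f t) := by
    have := mul_lt_mul_of_pos_right hk hft
    linarith
  linarith

/-- the fast case gives the decay -/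
lemma fast_decay {f : ℝ → ℝ} (hf : Continuous f) (hanti : Antitone f) (hpos : ∀ t, 0 < f t)
    {σ a : Fin 4 → ℝ} (hσ : σ 0 + σ 1 + σ 2 + σ 3 = 0) (s0 : 0 < σ 0) (s1 : σ 1 < 0)
    (s2 : 0 < σ 2) (s3 : σ 3 < 0) (hσ02 : σ 0 + σ 2 = 1) {N : ℕ}
    (hal : ∀ m, -Real.pi ≤ a m) (hau : ∀ m, a m + 1 / 4 ≤ 2 * Real.pi * N)
    (ha1 : 0 ≤ a 1) (ha3 : 0 ≤ a 3)
    (hSl : 1 ≤ σ 0 * a 0 + σ 1 * a 1 + σ 2 * a 2 + σ 3 * a 3)
    {θ : ℝ}
    (hH : H f σ ![a 0 - 1 / 4, a 1 + 1 / 4, a 2 - 1 / 4, a 3 + 1 / 4] (θ + 2 * Real.pi) ≤ 0) :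
    f (θ + 2 * Real.pi * ((N + 1 : ℕ) : ℝ))
      ≤ (2 * Real.pi * (N + 1)) / (2 * Real.pi * (N + 1) + 1 / 2) * f θ := by
  have hpi := Real.pi_pos
  have hpi3 := Real.pi_gt_three
  have h2 := fast_bound hf hanti hσ s0 s1 s2 s3 hσ02
    (b := ![a 0 - 1 / 4, a 1 + 1 / 4, a 2 - 1 / 4, a 3 + 1 / 4]) (φ := θ + 2 * Real.pi)
    (P := 2 * Real.pi) (M := 2 * Real.pi * N) (by positivity)
    (by
      intro m
      fin_cases m
      · show _ ≤ a 0 - 1 / 4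
        have := hal 0; linarith
      · show _ ≤ a 1 + 1 / 4
        have := hal 1; linarith
      · show _ ≤ a 2 - 1 / 4
        have := hal 2; linarith
      · show _ ≤ a 3 + 1 / 4
        have := hal 3; linarith)
    (by
      intro m
      fin_cases m
      · show a 0 - 1 / 4 ≤ _
        have := hau 0; linarith
      · show a 1 + 1 / 4 ≤ _
        have := hau 1; linarith
      · show a 2 - 1 / 4 ≤ _
        have := hau 2; linarith
      · show a 3 + 1 / 4 ≤ _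
        have := hau 3; linarith)
    (by show 0 ≤ a 1 + 1 / 4; linarith)
    (by show 0 ≤ a 3 + 1 / 4; linarith) hH
  have e1 : θ + 2 * Real.pi - 2 * Real.pi = θ := by ring
  have e2 : θ + 2 * Real.pi + 2 * Real.pi * N = θ + 2 * Real.pi * ((N + 1 : ℕ) : ℝ) := by
    push_cast; ring
  have e3 : 2 * Real.pi + 2 * Real.pi * N = 2 * Real.pi * (N + 1) := by ring
  rw [e1, e2, e3] at h2
  have h3 : σ 0 * (a 0 - 1 / 4) + σ 1 * (a 1 + 1 / 4) + σ 2 * (a 2 - 1 / 4) + σ 3 * (a 3 + 1 / 4)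
      = σ 0 * a 0 + σ 1 * a 1 + σ 2 * a 2 + σ 3 * a 3 - 1 / 2 := by
    linear_combination (-1 / 2 : ℝ) * hσ02 + (1 / 4 : ℝ) * hσ
  have h2' : f (θ + 2 * Real.pi * ((N + 1 : ℕ) : ℝ)) *
      (σ 0 * (a 0 - 1 / 4) + σ 1 * (a 1 + 1 / 4) + σ 2 * (a 2 - 1 / 4) + σ 3 * (a 3 + 1 / 4))
      ≤ (f θ - f (θ + 2 * Real.pi * ((N + 1 : ℕ) : ℝ))) * (2 * Real.pi * (N + 1)) := h2
  rw [h3] at h2'
  have h4 := hpos (θ + 2 * Real.pi * ((N + 1 : ℕ) : ℝ))
  set W : ℝ := 2 * Real.pi * (N + 1) with hW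
  have hW0 : 0 < W := by positivity
  have h5 : f (θ + 2 * Real.pi * ((N + 1 : ℕ) : ℝ)) * (1 / 2)
      ≤ f (θ + 2 * Real.pi * ((N + 1 : ℕ) : ℝ)) *
        (σ 0 * a 0 + σ 1 * a 1 + σ 2 * a 2 + σ 3 * a 3 - 1 / 2) :=
    mul_le_mul_of_nonneg_left (by linarith) h4.le
  rw [div_mul_eq_mul_div, le_div_iff₀ (by positivity)]
  linarith

/-- **Uniform decay.**  An arm with nearly closed turns that contains no copy of the cyclic
quadrilateral decays at a uniform exponential rate. -/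
theorem quad_decay (Q : Quad) (s0 : 0 < Q.σ 0) (s1 : Q.σ 1 < 0) (s2 : 0 < Q.σ 2)
    (s3 : Q.σ 3 < 0) (hσ02 : Q.σ 0 + Q.σ 2 = 1) :
    ∃ r : ℝ, 0 < r ∧ r < 1 ∧ ∀ f : ℝ → ℝ, Continuous f → Antitone f → (∀ t, 0 < f t) →
      Tendsto f atTop (𝓝 0) → ∀ T : ℝ, (∀ φ, T ≤ φ → r * f φ ≤ f (φ + 2 * Real.pi)) →
      ¬ HasCopy Q.u f T → ∃ N : ℕ, 1 ≤ N ∧ ∃ c : ℝ, 0 < c ∧ c < 1 ∧
        ∀ φ, T + 2 * Real.pi ≤ φ → f (φ + 2 * Real.pi * N) ≤ c * f φ := by
  obtain ⟨η, hη, hη1, hbox⟩ := Q.exists_box (ε := 1 / 4) (by norm_num)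
  obtain ⟨D, r, k, n₁, hD0, hDη, hD1, hDη', hr0, hr1, hrD, hrn₁, hrk, hk, hNk⟩ :=
    choose_r hη hη1 (lt_min s0 s2)
  refine ⟨r, hr0, hr1, ?_⟩
  intro f hf hanti hpos hlim T hrT hno
  have hpi := Real.pi_pos
  have hpi3 := Real.pi_gt_three
  obtain ⟨N, hN, hND, t, htT, ht⟩ := choose_N (T := T + 2 * Real.pi) hpos hlim hD0 hr0
    (fun φ hφ => hrT φ (by linarith)) hrn₁ hr1.le
  have hN2 := hNk N hN
  -- the phases
  have hβl : ∀ m, -Real.pi ≤ arg (Q.u m) := fun m => (Complex.neg_pi_lt_arg _).le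
  have hβu : ∀ m, arg (Q.u m) ≤ Real.pi := fun m => Complex.arg_le_pi _
  have hβexp : ∀ m, exp (arg (Q.u m) * I) = Q.u m := by
    intro m
    have := Complex.norm_mul_exp_arg_mul_I (Q.u m)
    rw [Q.hu, Complex.ofReal_one, one_mul] at this
    exact this
  obtain ⟨β, hβ⟩ : ∃ β : Fin 4 → ℝ, ∀ m, β m = arg (Q.u m) := ⟨fun m => arg (Q.u m), fun m => rfl⟩
  simp only [← hβ] at hβl hβu hβexp
  have hs13 : Q.σ 1 + Q.σ 3 = -1 := by have := Q.hσ; linarith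
  have hSβl : -(2 * Real.pi) ≤ Q.σ 0 * β 0 + Q.σ 1 * β 1 + Q.σ 2 * β 2 + Q.σ 3 * β 3 := by
    have e0 := mul_le_mul_of_nonneg_left (hβl 0) s0.le
    have e2 := mul_le_mul_of_nonneg_left (hβl 2) s2.le
    have e1 := mul_le_mul_of_nonpos_left (hβu 1) s1.le
    have e3 := mul_le_mul_of_nonpos_left (hβu 3) s3.le
    have e4 : Q.σ 0 * -Real.pi + Q.σ 2 * -Real.pi + Q.σ 1 * Real.pi + Q.σ 3 * Real.pi
        = -(2 * Real.pi) := by
      linear_combination (-Real.pi) * hσ02 + Real.pi * hs13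
    linarith only [e0, e1, e2, e3, e4]
  have hSβu : Q.σ 0 * β 0 + Q.σ 1 * β 1 + Q.σ 2 * β 2 + Q.σ 3 * β 3 ≤ 2 * Real.pi := by
    have e0 := mul_le_mul_of_nonneg_left (hβu 0) s0.le
    have e2 := mul_le_mul_of_nonneg_left (hβu 2) s2.le
    have e1 := mul_le_mul_of_nonpos_left (hβl 1) s1.le
    have e3 := mul_le_mul_of_nonpos_left (hβl 3) s3.le
    have e4 : Q.σ 0 * Real.pi + Q.σ 2 * Real.pi + Q.σ 1 * -Real.pi + Q.σ 3 * -Real.pi
        = 2 * Real.pi := by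
      linear_combination (Real.pi) * hσ02 - Real.pi * hs13
    linarith only [e0, e1, e2, e3, e4]
  obtain ⟨j, hjk, hjN, hSl, hSu⟩ := choose_j hσ02 (min_le_left _ _) (min_le_right _ _)
    (lt_min s0 s2) hSβl hSβu hN2
  have hk0 : (0 : ℝ) ≤ k := Nat.cast_nonneg k
  have hpk : 0 ≤ 2 * Real.pi * (k : ℝ) := by positivity
  have hpij : 2 * Real.pi * (k + 1) ≤ 2 * Real.pi * j :=
    mul_le_mul_of_nonneg_left hjk (by positivity)
  have hpiN : 2 * Real.pi * j ≤ 2 * Real.pi * (N - 3 - k - 1) :=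
    mul_le_mul_of_nonneg_left hjN (by positivity)
  obtain ⟨a, ea0, ea1, ea2, ea3⟩ : ∃ a : Fin 4 → ℝ, a 0 = β 0 ∧ a 1 = β 1 + 2 * Real.pi * j ∧
      a 2 = β 2 + 2 * Real.pi * (N - 2) ∧ a 3 = β 3 + 2 * Real.pi * j :=
    ⟨![β 0, β 1 + 2 * Real.pi * j, β 2 + 2 * Real.pi * (N - 2), β 3 + 2 * Real.pi * j],
      rfl, rfl, rfl, rfl⟩
  have hexp2 : ∀ n : ℕ, exp (((2 * Real.pi * (n : ℝ) : ℝ) : ℂ) * I) = 1 := by
    intro n
    have := Complex.exp_nat_mul_two_pi_mul_I n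
    rw [← this]
    congr 1; push_cast; ring
  have hN2' : 2 ≤ N := by
    have h1 : (2 : ℝ) ≤ N := by linarith only [hjk, hjN, hk0]
    exact_mod_cast h1
  have hsub : ((N - 2 : ℕ) : ℝ) = (N : ℝ) - 2 := by
    rw [Nat.cast_sub hN2']; norm_num
  have haU : ∀ m, Q.u m = exp (a m * I) := by
    intro m
    fin_cases m
    · show Q.u 0 = exp ((a 0 : ℝ) * I)
      rw [ea0]; exact (hβexp 0).symm
    · show Q.u 1 = exp ((a 1 : ℝ) * I)
      have : ((a 1 : ℝ) : ℂ) * I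
          = β 1 * I + ((2 * Real.pi * (j : ℝ) : ℝ) : ℂ) * I := by rw [ea1]; push_cast; ring
      rw [this, Complex.exp_add, hexp2, mul_one, hβexp]
    · show Q.u 2 = exp ((a 2 : ℝ) * I)
      have : ((a 2 : ℝ) : ℂ) * I
          = β 2 * I + ((2 * Real.pi * ((N - 2 : ℕ) : ℝ) : ℝ) : ℂ) * I := by
        rw [hsub, ea2]; push_cast; ring
      rw [this, Complex.exp_add, hexp2, mul_one, hβexp]
    · show Q.u 3 = exp ((a 3 : ℝ) * I)
      have : ((a 3 : ℝ) : ℂ) * I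
          = β 3 * I + ((2 * Real.pi * (j : ℝ) : ℝ) : ℂ) * I := by rw [ea3]; push_cast; ring
      rw [this, Complex.exp_add, hexp2, mul_one, hβexp]
  have hS : Q.σ 0 * a 0 + Q.σ 1 * a 1 + Q.σ 2 * a 2 + Q.σ 3 * a 3
      = Q.σ 0 * β 0 + Q.σ 1 * β 1 + Q.σ 2 * β 2 + Q.σ 3 * β 3
        + 2 * Real.pi * (Q.σ 2 * (N - 2)) - 2 * Real.pi * j := by
    rw [ea0, ea1, ea2, ea3]
    linear_combination (2 * Real.pi * j) * hs13
  rw [← hS] at hSl hSu
  have hal : ∀ m, -Real.pi ≤ a m := by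
    intro m
    fin_cases m
    · show _ ≤ a 0
      rw [ea0]; exact hβl 0
    · show _ ≤ a 1
      rw [ea1]; have := hβl 1; linarith only [this, hpij, hpk, hpi]
    · show _ ≤ a 2
      rw [ea2]; have := hβl 2; linarith only [this, hpij, hpiN, hpk, hpi]
    · show _ ≤ a 3
      rw [ea3]; have := hβl 3; linarith only [this, hpij, hpk, hpi]
  have hau : ∀ m, a m + 1 / 4 ≤ 2 * Real.pi * N := by
    intro m
    fin_cases m
    · show a 0 + _ ≤ _
      rw [ea0]; have := hβu 0; linarith only [this, hpij, hpiN, hpk, hpi3]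
    · show a 1 + _ ≤ _
      rw [ea1]; have := hβu 1; linarith only [this, hpij, hpiN, hpk, hpi3]
    · show a 2 + _ ≤ _
      rw [ea2]; have := hβu 2; linarith only [this, hpij, hpiN, hpk, hpi3]
    · show a 3 + _ ≤ _
      rw [ea3]; have := hβu 3; linarith only [this, hpij, hpiN, hpk, hpi3]
  have ha1 : 0 ≤ a 1 := by
    rw [ea1]; have := hβl 1; linarith only [this, hpij, hpk, hpi]
  have ha3 : 0 ≤ a 3 := by
    rw [ea3]; have := hβl 3; linarith only [this, hpij, hpk, hpi]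
  have halt := alt Q s0 s1 s2 s3 hη hbox hf hanti hpos hlim haU (T := T) (T' := T + 2 * Real.pi)
    (fun m => by have := hal m; linarith only [this, hpi3])
    (fun φ hφ m => by
      have h1 := hrT (φ - 2 * Real.pi) (by linarith only [hφ])
      have h2 : φ - 2 * Real.pi + 2 * Real.pi = φ := by ring
      rw [h2] at h1
      have h0 : f (φ + a m - 1 / 4) ≤ f (φ - 2 * Real.pi) :=
        hanti (by have := hal m; linarith only [this, hpi3])
      have h3 : D * f (φ - 2 * Real.pi) ≤ f φ :=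
        (mul_le_mul_of_nonneg_right hrD (hpos _).le).trans h1
      have h4 := mul_le_mul_of_nonneg_left h3 (by linarith only [hη] : (0:ℝ) ≤ 1 + η)
      rw [← mul_assoc, hDη, one_mul] at h4
      exact h0.trans h4)
    (fun φ hφ m => by
      have h1 : f (φ + 2 * Real.pi * N) ≤ f (φ + a m + 1 / 4) :=
        hanti (by have := hau m; linarith only [this])
      have h2 := hND φ hφ
      have h3 := mul_le_mul_of_nonneg_right hDη' (hpos φ).le
      exact h3.trans (h2.trans h1))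
    hno
  rcases halt with hfast | hslow
  · have hW0 : 0 < 2 * Real.pi * ((N : ℝ) + 1) := by positivity
    refine ⟨N + 1, by omega, (2 * Real.pi * (N + 1)) / (2 * Real.pi * (N + 1) + 1 / 2),
      by positivity, by
      rw [div_lt_one (by positivity)]; linarith only [hW0], fun θ hθ => ?_⟩
    have h1 := hfast (θ + 2 * Real.pi) (by linarith only [hθ, hpi])
    exact fast_decay hf hanti hpos Q.hσ s0 s1 s2 s3 hσ02 hal hau ha1 ha3 hSl h1
  · exact (slow_contra hf hanti hpos Q.hσ s0 s1 s2 s3 hσ02 (min_le_left _ _) (min_le_right _ _)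
      (lt_min s0 s2) hr0 hr1 hrk hk hβl hβu ea0 ea1 ea2 ea3 hjk hjN hSl hSu hrT htT ht
      (hslow t htT)).elim

end Pool.Agent.H813.Spiral
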