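import Mathlib
import Pool.Agent.H813.SpiralQuad

/-!
# From the squared radius to spiral arms in plane sets
-/

set_option autoImplicit false

namespace Pool.Agent.H813.Spiral

open Complex Set Filter Topology
open scoped ComplexConjugate

/-- The radius function of a monotone spiral arm, on the angles `θ ≥ θ₀`. -/
structure IsArm (ρ : ℝ → ℝ) (θ₀ : ℝ) : Prop where
  continuousOn : ContinuousOn ρ (Set.Ici θ₀)
  antitoneOn : AntitoneOn ρ (Set.Ici θ₀)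
  pos : ∀ θ, θ₀ ≤ θ → 0 < ρ θ
  tendsto : Tendsto ρ atTop (𝓝 0)

/-- The point of the arm with polar angle `θ` (`o = 1`) or `-θ` (`o = -1`) around `p`. -/
noncomputable def armPoint (p : ℂ) (o : ℝ) (ρ : ℝ → ℝ) (θ : ℝ) : ℂ :=
  p + ρ θ * exp (((o * θ : ℝ) : ℂ) * I)

/-- The set `C` contains the arm. -/
def ContainsArm (C : Set ℂ) (p : ℂ) (o : ℝ) (ρ : ℝ → ℝ) (θ₀ : ℝ) : Prop :=
  ∀ θ, θ₀ ≤ θ → armPoint p o ρ θ ∈ C

/-- `C` contains in every disc around `p` the vertices of a directly similar copy of the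
quadruple `q`. -/
def InscribesNear (C : Set ℂ) (p : ℂ) (q : Fin 4 → ℂ) : Prop :=
  ∀ δ : ℝ, 0 < δ → ∃ a b : ℂ, a ≠ 0 ∧ ∀ m, a * q m + b ∈ C ∧ ‖a * q m + b - p‖ < δ

/-- four distinct points of a circle, in cyclic order: the diagonals cross -/
structure CyclicQuad (q : Fin 4 → ℂ) : Prop where
  inj : Function.Injective q
  circle : ∃ (o : ℂ) (R : ℝ), 0 < R ∧ ∀ m, ‖q m - o‖ = R
  cross : (openSegment ℝ (q 0) (q 2) ∩ openSegment ℝ (q 1) (q 3)).Nonempty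

/-- the squared radius, extended to all angles -/
noncomputable def sq (ρ : ℝ → ℝ) (θ₀ : ℝ) (t : ℝ) : ℝ := ρ (max t θ₀) ^ 2

lemma sq_eq (ρ : ℝ → ℝ) {θ₀ t : ℝ} (h : θ₀ ≤ t) : sq ρ θ₀ t = ρ t ^ 2 := by
  unfold sq; rw [max_eq_left h]

lemma sqrt_sq' {ρ : ℝ → ℝ} {θ₀ : ℝ} (hρ : IsArm ρ θ₀) {t : ℝ} (h : θ₀ ≤ t) :
    √(sq ρ θ₀ t) = ρ t := by
  rw [sq_eq ρ h, Real.sqrt_sq (hρ.pos t h).le]

lemma sq_continuous {ρ : ℝ → ℝ} {θ₀ : ℝ} (hρ : IsArm ρ θ₀) : Continuous (sq ρ θ₀) := by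
  unfold sq
  apply Continuous.pow
  exact hρ.continuousOn.comp_continuous (continuous_id.max continuous_const)
    (fun t => mem_Ici.mpr (le_max_right t θ₀))

lemma sq_antitone {ρ : ℝ → ℝ} {θ₀ : ℝ} (hρ : IsArm ρ θ₀) : Antitone (sq ρ θ₀) := by
  intro s t hst
  unfold sq
  have h1 := hρ.antitoneOn (le_max_right s θ₀) (le_max_right t θ₀) (max_le_max_right θ₀ hst)
  exact pow_le_pow_left₀ (hρ.pos _ (le_max_right t θ₀)).le h1 2

lemma sq_pos {ρ : ℝ → ℝ} {θ₀ : ℝ} (hρ : IsArm ρ θ₀) (t : ℝ) : 0 < sq ρ θ₀ t := by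
  unfold sq
  exact pow_pos (hρ.pos _ (le_max_right t θ₀)) 2

lemma sq_tendsto {ρ : ℝ → ℝ} {θ₀ : ℝ} (hρ : IsArm ρ θ₀) :
    Tendsto (sq ρ θ₀) atTop (𝓝 0) := by
  have h1 : Tendsto (fun t => ρ t ^ 2) atTop (𝓝 0) := by
    simpa using hρ.tendsto.pow 2
  refine h1.congr' ?_
  filter_upwards [eventually_ge_atTop θ₀] with t ht
  exact (sq_eq ρ ht).symm

/-- mirror image -/
noncomputable def mir (o : ℝ) (z : ℂ) : ℂ := if o = 1 then z else conj z

lemma mir_exp {o : ℝ} (ho : o = 1 ∨ o = -1) (t : ℝ) :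
    mir o (exp ((t : ℝ) * I)) = exp (((o * t : ℝ) : ℂ) * I) := by
  unfold mir
  rcases ho with h | h
  · rw [if_pos h, h]; simp
  · rw [if_neg (by rw [h]; norm_num), h, ← Complex.exp_conj]
    congr 1
    simp

lemma mir_real {o : ℝ} (x : ℝ) : mir o (x : ℂ) = x := by
  unfold mir; split_ifs <;> simp

lemma mir_mul {o : ℝ} (z w : ℂ) : mir o (z * w) = mir o z * mir o w := by
  unfold mir; split_ifs <;> simp

lemma mir_add {o : ℝ} (z w : ℂ) : mir o (z + w) = mir o z + mir o w := by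
  unfold mir; split_ifs <;> simp

lemma mir_ne {o : ℝ} {z : ℂ} (h : z ≠ 0) : mir o z ≠ 0 := by
  unfold mir; split_ifs
  · exact h
  · simpa using h

lemma mir_mir {o : ℝ} (z : ℂ) : mir o (mir o z) = z := by
  unfold mir; split_ifs <;> simp

/-- copies beyond every angle give inscribed copies near `p` -/
lemma inscribes_of_hasCopy {C : Set ℂ} {p : ℂ} {o : ℝ} (ho : o = 1 ∨ o = -1) {ρ : ℝ → ℝ}
    {θ₀ : ℝ} (hρ : IsArm ρ θ₀) (hC : ContainsArm C p o ρ θ₀) {q u : Fin 4 → ℂ} {α γ : ℂ}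
    (hα : α ≠ 0) (hq : ∀ m, ∃ k, mir o (u k) = α * q m + γ)
    (h : ∀ T, HasCopy u (sq ρ θ₀) T) : InscribesNear C p q := by
  intro δ hδ
  obtain ⟨T, hT⟩ := (hρ.tendsto.eventually (gt_mem_nhds hδ)).exists_forall_of_atTop
  obtain ⟨ψ, hψ, c, w, hw, hcw⟩ := h (max T θ₀)
  have key : ∀ m, ∃ k,
      (mir o w * α) * q m + (mir o w * γ + mir o c + p) = armPoint p o ρ (ψ k) := by
    intro m
    obtain ⟨k, hk⟩ := hq m
    refine ⟨k, ?_⟩
    have h1 := congrArg (mir o) (hcw k)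
    rw [mir_add, mir_mul, mir_mul, mir_real, mir_exp ho, hk,
      sqrt_sq' hρ ((le_max_right T θ₀).trans (hψ k))] at h1
    unfold armPoint
    rw [← h1]; ring
  refine ⟨mir o w * α, mir o w * γ + mir o c + p, mul_ne_zero (mir_ne hw) hα, fun m => ?_⟩
  obtain ⟨k, hk⟩ := key m
  refine ⟨?_, ?_⟩
  · rw [hk]
    exact hC _ ((le_max_right T θ₀).trans (hψ k))
  · rw [hk]
    unfold armPoint
    rw [add_sub_cancel_left, norm_mul, Complex.norm_exp_ofReal_mul_I, mul_one, Complex.norm_real,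
      Real.norm_eq_abs, abs_of_pos (hρ.pos _ ((le_max_right T θ₀).trans (hψ k)))]
    exact hT _ ((le_max_left T θ₀).trans (hψ k))

/-- monotonicity in the starting angle -/
lemma HasCopy.mono {u : Fin 4 → ℂ} {f : ℝ → ℝ} {T T' : ℝ} (h : T ≤ T') (hc : HasCopy u f T') :
    HasCopy u f T := by
  obtain ⟨ψ, hψ, r⟩ := hc
  exact ⟨ψ, fun m => h.trans (hψ m), r⟩

/-- the vertices of the rectangles whose diagonals cross at the angle `β` -/
noncomputable def rect (β : ℝ) : Fin 4 → ℂ := ![1, exp (β * I), -1, -exp (β * I)]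

lemma rect_mir {o : ℝ} (ho : o = 1 ∨ o = -1) (β : ℝ) :
    ∃ α : ℂ, α ≠ 0 ∧ ∀ m, ∃ k, mir o (rectU β k) = α * rect β m + 0 := by
  rcases ho with h | h
  · refine ⟨1, one_ne_zero, fun m => ⟨m, ?_⟩⟩
    unfold mir
    rw [if_pos h, one_mul, add_zero]
    rfl
  · have he : conj (exp (β * I)) = exp (-(β * I)) := by
      rw [← Complex.exp_conj]; congr 1; simp
    have hee : exp (-((β : ℂ) * I)) * exp (β * I) = 1 := by
      rw [← Complex.exp_add]; simp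
    refine ⟨exp (-(β * I)), Complex.exp_ne_zero _, fun m => ?_⟩
    have hmir : ∀ z, mir o z = conj z := by
      intro z; unfold mir; rw [if_neg (by rw [h]; norm_num)]
    fin_cases m
    · refine ⟨1, ?_⟩
      rw [hmir]
      show conj (exp (β * I)) = exp (-(β * I)) * 1 + 0
      rw [he]; ring
    · refine ⟨0, ?_⟩
      rw [hmir]
      show conj (1 : ℂ) = exp (-(β * I)) * exp (β * I) + 0
      rw [hee]; simp
    · refine ⟨3, ?_⟩
      rw [hmir]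
      show conj (-exp (β * I)) = exp (-(β * I)) * (-1) + 0
      rw [map_neg, he]; ring
    · refine ⟨2, ?_⟩
      rw [hmir]
      show conj (-1 : ℂ) = exp (-(β * I)) * (-exp (β * I)) + 0
      rw [mul_neg, hee]; simp

lemma conj_of_norm {x : ℂ} (hx : ‖x‖ = 1) : conj x = x⁻¹ := by
  rw [Complex.inv_def, Complex.normSq_eq_norm_sq, hx]; simp

lemma det_ne {x y z : ℂ} (hx : ‖x‖ = 1) (hy : ‖y‖ = 1) (hz : ‖z‖ = 1) (hxy : x ≠ y)
    (hzy : z ≠ y) (hxz : x ≠ z) : ((x - y) * conj (z - y)).im ≠ 0 := by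
  intro h
  have h1 : conj ((x - y) * conj (z - y)) = (x - y) * conj (z - y) :=
    Complex.conj_eq_iff_im.mpr h
  rw [map_mul, Complex.conj_conj, map_sub, map_sub, conj_of_norm hx, conj_of_norm hy,
    conj_of_norm hz] at h1
  have x0 : x ≠ 0 := by intro e; rw [e] at hx; simp at hx
  have y0 : y ≠ 0 := by intro e; rw [e] at hy; simp at hy
  have z0 : z ≠ 0 := by intro e; rw [e] at hz; simp at hz
  have h2 : (y - x) * (z - y) * z = (x - y) * (y - z) * x := by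
    field_simp at h1
    linear_combination h1
  have h3 : (x - y) * (z - y) * (x - z) = 0 := by linear_combination h2
  rcases mul_eq_zero.mp h3 with h4 | h4
  · rcases mul_eq_zero.mp h4 with h5 | h5
    · exact hxy (sub_eq_zero.mp h5)
    · exact hzy (sub_eq_zero.mp h5)
  · exact hxz (sub_eq_zero.mp h4)

/-- a cyclic quadrilateral as a `Quad` -/
lemma quad_of_cyclic {q : Fin 4 → ℂ} (hq : CyclicQuad q) :
    ∃ Q : Quad, 0 < Q.σ 0 ∧ Q.σ 1 < 0 ∧ 0 < Q.σ 2 ∧ Q.σ 3 < 0 ∧ Q.σ 0 + Q.σ 2 = 1 ∧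
      ∃ α γ : ℂ, α ≠ 0 ∧ ∀ m, Q.u m = α * q m + γ := by
  obtain ⟨c, R, hR, hc⟩ := hq.circle
  obtain ⟨z, ⟨s, s', hs, hs', hss, hz⟩, ⟨t, t', ht, ht', htt, hz'⟩⟩ := hq.cross
  have hR0 : (R : ℂ) ≠ 0 := by exact_mod_cast hR.ne'
  set u : Fin 4 → ℂ := fun m => (q m - c) / R with hu
  have hun : ∀ m, ‖u m‖ = 1 := by
    intro m
    simp only [hu]
    rw [norm_div, hc, Complex.norm_real, Real.norm_eq_abs, abs_of_pos hR, div_self hR.ne']
  have hne : ∀ m n, m ≠ n → u m ≠ u n := by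
    intro m n hmn h
    simp only [hu] at h
    rw [div_left_inj' hR0, sub_left_inj] at h
    exact hmn (hq.inj h)
  refine ⟨⟨u, ![s, -t, s', -t'], hun, ?_, ?_, ?_, ?_⟩, ?_, ?_, ?_, ?_, ?_, ?_⟩
  · simp only [Matrix.cons_val_zero, Matrix.cons_val_one, Matrix.cons_val]
    linarith
  · simp only [Matrix.cons_val_zero, Matrix.cons_val_one, Matrix.cons_val, hu]
    rw [Complex.real_smul, Complex.real_smul] at hz hz'
    have e1 : (s : ℂ) + s' = 1 := by exact_mod_cast hss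
    have e2 : (t : ℂ) + t' = 1 := by exact_mod_cast htt
    push_cast
    field_simp
    linear_combination hz - hz' - c * e1 + c * e2
  · simp only [Matrix.cons_val]
    linarith
  · exact det_ne (hun 0) (hun 1) (hun 2) (hne 0 1 (by decide)) (hne 2 1 (by decide))
      (hne 0 2 (by decide))
  · simpa using hs
  · simpa using ht
  · simpa using hs'
  · show -t' < 0
    linarith
  · show s + s' = 1
    exact hss
  · refine ⟨(R : ℂ)⁻¹, -(c / R), inv_ne_zero hR0, fun m => ?_⟩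
    show (q m - c) / R = _
    field_simp
    ring

/-- the mirror image of a cyclic quadrilateral -/
lemma CyclicQuad.mir {q : Fin 4 → ℂ} (hq : CyclicQuad q) (o : ℝ) :
    CyclicQuad (fun m => mir o (q m)) := by
  unfold Spiral.mir
  split_ifs with h
  · exact hq
  · refine ⟨fun m n hmn => hq.inj ((starRingEnd ℂ).injective hmn), ?_, ?_⟩
    · obtain ⟨c, R, hR, hc⟩ := hq.circle
      refine ⟨conj c, R, hR, fun m => ?_⟩
      rw [← map_sub, RCLike.norm_conj]; exact hc m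
    · obtain ⟨z, ⟨s, s', hs, hs', hss, hz⟩, ⟨t, t', ht, ht', htt, hz'⟩⟩ := hq.cross
      refine ⟨conj z, ⟨s, s', hs, hs', hss, ?_⟩, ⟨t, t', ht, ht', htt, ?_⟩⟩
      · rw [← hz, Complex.real_smul, Complex.real_smul, Complex.real_smul, Complex.real_smul]
        simp
      · rw [← hz', Complex.real_smul, Complex.real_smul, Complex.real_smul, Complex.real_smul]
        simp

/-- the closing condition for the squared radius -/
lemma sq_ratio {ρ : ℝ → ℝ} {θ₀ r T : ℝ} (hρ : IsArm ρ θ₀) (hr : 0 < r)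
    (h : ∀ θ, T ≤ θ → r * ρ θ ≤ ρ (θ + 2 * Real.pi)) :
    ∀ θ, max T θ₀ ≤ θ → r ^ 2 * sq ρ θ₀ θ ≤ sq ρ θ₀ (θ + 2 * Real.pi) := by
  intro θ hθ
  have hpi := Real.pi_pos
  have h1 : θ₀ ≤ θ := (le_max_right _ _).trans hθ
  rw [sq_eq ρ h1, sq_eq ρ (by linarith), ← mul_pow]
  exact pow_le_pow_left₀ (mul_nonneg hr.le (hρ.pos θ h1).le) (h θ ((le_max_left _ _).trans hθ)) 2

/-- **Rate locking for rectangles.** -/
theorem rate_locking {β : ℝ} (hβ : 0 < β) (hβ' : β < Real.pi) {κ : ℝ} (hκ : 1 < κ) :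
    ∃ X > 0, ∃ r : ℝ, r < 1 ∧ ∀ (C : Set ℂ) (p : ℂ) (o : ℝ) (ρ : ℝ → ℝ) (θ₀ : ℝ),
      (o = 1 ∨ o = -1) → IsArm ρ θ₀ → ContainsArm C p o ρ θ₀ →
      (∀ᶠ θ in atTop, r * ρ θ ≤ ρ (θ + 2 * Real.pi)) →
      InscribesNear C p (rect β) ∨
      ∃ N : ℕ, 1 ≤ N ∧ ∀ᶠ θ in atTop,
        Real.exp (-(κ * X)) * ρ θ ≤ ρ (θ + 2 * Real.pi * N) ∧
        ρ (θ + 2 * Real.pi * N) ≤ Real.exp (-X) * ρ θ := by
  obtain ⟨X, hX, r, hr0, hr1, hmain⟩ := rect_locking hβ hβ' hκ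
  refine ⟨X / 2, by positivity, √r, ?_, ?_⟩
  · rw [Real.sqrt_lt' one_pos]; simpa using hr1
  intro C p o ρ θ₀ ho hρ hC hclose
  by_cases hcopy : ∀ T, HasCopy (rectU β) (sq ρ θ₀) T
  · left
    obtain ⟨α, hα, hq⟩ := rect_mir ho β
    exact inscribes_of_hasCopy ho hρ hC hα hq hcopy
  · right
    push Not at hcopy
    obtain ⟨T₁, hT₁⟩ := hcopy
    obtain ⟨T₂, hT₂⟩ := hclose.exists_forall_of_atTop
    have hsr : 0 < √r := Real.sqrt_pos.mpr hr0
    have h1 := sq_ratio hρ hsr hT₂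
    rw [Real.sq_sqrt hr0.le] at h1
    set T : ℝ := max T₁ (max T₂ θ₀) with hT
    have h2 : ¬ HasCopy (rectU β) (sq ρ θ₀) T := fun h => hT₁ (h.mono (le_max_left _ _))
    obtain ⟨N, hN, hbound⟩ := hmain (sq ρ θ₀) (sq_continuous hρ) (sq_antitone hρ) (sq_pos hρ)
      (sq_tendsto hρ) T (fun φ hφ => h1 φ ((le_max_right _ _).trans hφ)) h2
    refine ⟨N, hN, ?_⟩
    filter_upwards [eventually_ge_atTop (T + 2 * Real.pi)] with θ hθ
    have hpi := Real.pi_pos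
    have hθ₀ : θ₀ ≤ θ := by
      have : θ₀ ≤ T := (le_max_right _ _).trans (le_max_right _ _)
      linarith
    have hpiN : 0 ≤ 2 * Real.pi * (N : ℝ) := by positivity
    obtain ⟨b1, b2⟩ := hbound θ hθ
    have hθN : θ₀ ≤ θ + 2 * Real.pi * N := by linarith
    rw [sq_eq ρ hθ₀, sq_eq ρ hθN] at b1 b2
    have p1 := hρ.pos θ hθ₀
    have p2 := hρ.pos _ hθN
    constructor
    · apply le_of_sq_le_sq _ p2.le
      rw [mul_pow, ← Real.exp_nat_mul]
      have : ((2 : ℕ) : ℝ) * -(κ * (X / 2)) = -(κ * X) := by push_cast; ring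
      rw [this]; exact b1
    · apply le_of_sq_le_sq _ (mul_pos (Real.exp_pos _) p1).le
      rw [mul_pow, ← Real.exp_nat_mul]
      have : ((2 : ℕ) : ℝ) * -(X / 2) = -X := by push_cast; ring
      rw [this]; exact b2

/-- **Uniform decay for cyclic quadrilaterals.** -/
theorem uniform_decay {q : Fin 4 → ℂ} (hq : CyclicQuad q) :
    ∃ r : ℝ, r < 1 ∧ ∀ (C : Set ℂ) (p : ℂ) (o : ℝ) (ρ : ℝ → ℝ) (θ₀ : ℝ),
      (o = 1 ∨ o = -1) → IsArm ρ θ₀ → ContainsArm C p o ρ θ₀ →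
      (∀ᶠ θ in atTop, r * ρ θ ≤ ρ (θ + 2 * Real.pi)) →
      InscribesNear C p q ∨
      ∃ N : ℕ, 1 ≤ N ∧ ∃ c : ℝ, c < 1 ∧ ∀ᶠ θ in atTop, ρ (θ + 2 * Real.pi * N) ≤ c * ρ θ := by
  have main : ∀ o : ℝ, (o = 1 ∨ o = -1) → ∃ r : ℝ, 0 < r ∧ r < 1 ∧
      ∀ (C : Set ℂ) (p : ℂ) (ρ : ℝ → ℝ) (θ₀ : ℝ),
      IsArm ρ θ₀ → ContainsArm C p o ρ θ₀ →
      (∀ᶠ θ in atTop, r * ρ θ ≤ ρ (θ + 2 * Real.pi)) →
      InscribesNear C p q ∨
      ∃ N : ℕ, 1 ≤ N ∧ ∃ c : ℝ, c < 1 ∧ ∀ᶠ θ in atTop, ρ (θ + 2 * Real.pi * N) ≤ c * ρ θ := by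
    intro o ho
    obtain ⟨Q, s0, s1, s2, s3, hs, α, γ, hα, hQ⟩ := quad_of_cyclic (hq.mir o)
    obtain ⟨r, hr0, hr1, hmain⟩ := quad_decay Q s0 s1 s2 s3 hs
    have hsr : 0 < √r := Real.sqrt_pos.mpr hr0
    refine ⟨√r, hsr, ?_, ?_⟩
    · rw [Real.sqrt_lt' one_pos]; simpa using hr1
    intro C p ρ θ₀ hρ hC hclose
    by_cases hcopy : ∀ T, HasCopy Q.u (sq ρ θ₀) T
    · left
      refine inscribes_of_hasCopy ho hρ hC (mir_ne (o := o) hα) (γ := mir o γ)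
        (fun m => ⟨m, ?_⟩) hcopy
      rw [hQ, mir_add, mir_mul, mir_mir]
    · right
      push Not at hcopy
      obtain ⟨T₁, hT₁⟩ := hcopy
      obtain ⟨T₂, hT₂⟩ := hclose.exists_forall_of_atTop
      have h1 := sq_ratio hρ hsr hT₂
      rw [Real.sq_sqrt hr0.le] at h1
      set T : ℝ := max T₁ (max T₂ θ₀) with hT
      have h2 : ¬ HasCopy Q.u (sq ρ θ₀) T := fun h => hT₁ (h.mono (le_max_left _ _))
      obtain ⟨N, hN, c, hc0, hc1, hbound⟩ := hmain (sq ρ θ₀) (sq_continuous hρ) (sq_antitone hρ)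
        (sq_pos hρ) (sq_tendsto hρ) T (fun φ hφ => h1 φ ((le_max_right _ _).trans hφ)) h2
      refine ⟨N, hN, √c, ?_, ?_⟩
      · rw [Real.sqrt_lt' one_pos]; simpa using hc1
      filter_upwards [eventually_ge_atTop (T + 2 * Real.pi)] with θ hθ
      have hpi := Real.pi_pos
      have hθ₀ : θ₀ ≤ θ := by
        have : θ₀ ≤ T := (le_max_right _ _).trans (le_max_right _ _)
        linarith
      have hpiN : 0 ≤ 2 * Real.pi * (N : ℝ) := by positivity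
      have b2 := hbound θ hθ
      have hθN : θ₀ ≤ θ + 2 * Real.pi * N := by linarith
      rw [sq_eq ρ hθ₀, sq_eq ρ hθN] at b2
      have p1 := hρ.pos θ hθ₀
      apply le_of_sq_le_sq _ (mul_nonneg (Real.sqrt_nonneg _) p1.le)
      rw [mul_pow, Real.sq_sqrt hc0.le]
      exact b2
  obtain ⟨r₁, h10, h11, h1⟩ := main 1 (Or.inl rfl)
  obtain ⟨r₂, h20, h21, h2⟩ := main (-1) (Or.inr rfl)
  refine ⟨max r₁ r₂, max_lt h11 h21, ?_⟩
  intro C p o ρ θ₀ ho hρ hC hclose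
  have hge : ∀ᶠ θ in atTop, 0 ≤ ρ θ := by
    filter_upwards [eventually_ge_atTop θ₀] with θ hθ
    exact (hρ.pos θ hθ).le
  rcases ho with h | h
  · subst h
    refine h1 C p ρ θ₀ hρ hC ?_
    filter_upwards [hclose, hge] with θ hθ hθ'
    exact (mul_le_mul_of_nonneg_right (le_max_left _ _) hθ').trans hθ
  · subst h
    refine h2 C p ρ θ₀ hρ hC ?_
    filter_upwards [hclose, hge] with θ hθ hθ'
    exact (mul_le_mul_of_nonneg_right (le_max_right _ _) hθ').trans hθ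

end Pool.Agent.H813.Spiral
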